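import Pool.Agent.Lib.MP_1a91b9_ntM.Loc

/-!
# Isomorphic fields
-/

set_option autoImplicit false

namespace Pool.Agent.Lib.MP_1a91b9_ntM

open NumberField IsDedekindDomain WeierstrassCurve
  Pool.Agent.Lib.MP_1a91b9_nt Pool.Agent.Lib.MP_1a91b9_nuT Pool.Agent.Lib.MP_1a91b9_ntQ
open Pool.Agent.Lib.MP_1a91b9_nuX.DB Pool.Agent.Lib.MP_1a91b9_nuX.GL
  Pool.Agent.Lib.MP_1a91b9_nuX.PG Pool.Agent.Lib.MP_1a91b9_nuX.PH
open Pool.Agent.Lib.MP_1a91b9_nuX Pool.Agent.Lib.MP_1a91b9_nuX.LG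

universe u

/-- descent of a good model along a Galois extension at an unramified place -/
theorem desc_gal {N L : Type u} [Field N] [NumberField N] [Field L] [NumberField L] [Algebra N L]
    [IsGalois N L] {w : HeightOneSpectrum (𝓞 L)}
    (he : w.asIdeal.ramificationIdx (𝓞 N) = 1) {W : WeierstrassCurve N}
    (h : Gd (W.map (algebraMap N L)) w) : Gd W (w.under (𝓞 N)) := by
  obtain ⟨C, hC⟩ := h
  have hp : w.asIdeal.IsPrime := w.isPrime
  have hfin1 : Finite (𝓞 N ⧸ w.asIdeal.under (𝓞 N)) :=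
    Ideal.finiteQuotientOfFreeOfNeBot _ (w.under (𝓞 N)).ne_bot
  have h1 := Ideal.card_inertia_eq_ramificationIdxIn (G := Gal(L/N)) (w.asIdeal.under (𝓞 N))
    w.asIdeal
  rw [Ideal.ramificationIdxIn_eq_ramificationIdx _ w.asIdeal Gal(L/N), he] at h1
  have h3 : w.asIdeal.inertia Gal(L/N) = ⊥ := Subgroup.eq_bot_of_card_eq _ h1
  refine GM.desc_good (u := (C.u : L)) (r := C.r) (s := C.s) (t := C.t) C.u.ne_zero ?_ ?_
  · intro σ hσ
    have h4 : σ ∈ w.asIdeal.inertia Gal(L/N) := hσ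
    rw [h3, Subgroup.mem_bot] at h4
    rw [h4]
    exact ⟨rfl, rfl, rfl, rfl⟩
  · have e1 : (⟨Units.mk0 (C.u : L) C.u.ne_zero, C.r, C.s, C.t⟩ : VariableChange L) = C := by
      ext
      · rfl
      · rfl
      · rfl
      · rfl
    rw [e1]
    exact hC

/-- the places of an isomorphic field -/
theorem place_one {N F : Type u} [Field N] [NumberField N] [Field F] [NumberField F]
    [Algebra N F] [IsGalois N F] (h1 : Module.finrank N F = 1) (v : HeightOneSpectrum (𝓞 N)) :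
    ∃ w : HeightOneSpectrum (𝓞 F),
      (∀ w' : HeightOneSpectrum (𝓞 F), w'.under (𝓞 N) = v ↔ w' = w) ∧
      w.asIdeal.inertiaDeg (𝓞 N) = 1 ∧ w.asIdeal.ramificationIdx (𝓞 N) = 1 := by
  have hvp : v.asIdeal.IsPrime := v.isPrime
  have hvm : v.asIdeal.IsMaximal := v.isMaximal
  have hfund := Ideal.ncard_primesOver_mul_ramificationIdxIn_mul_inertiaDegIn v.asIdeal (𝓞 F)
    Gal(F/N)
  rw [IsGalois.card_aut_eq_finrank, h1] at hfund
  have hg := Nat.eq_one_of_mul_eq_one_right hfund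
  have hef := Nat.eq_one_of_mul_eq_one_left hfund
  have he := Nat.eq_one_of_mul_eq_one_right hef
  have hf := Nat.eq_one_of_mul_eq_one_left hef
  obtain ⟨P, hP⟩ := Set.ncard_eq_one.1 hg
  have hPm : P ∈ v.asIdeal.primesOver (𝓞 F) := by
    rw [hP]
    exact Set.mem_singleton P
  obtain ⟨hP1, hP2⟩ := hPm
  have hne : P ≠ ⊥ := by
    rintro rfl
    have h2 := hP2.over
    rw [Ideal.under_bot] at h2
    exact v.ne_bot h2
  refine ⟨⟨P, hP1, hne⟩, fun w' => ?_, ?_, ?_⟩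
  · constructor
    · intro h
      apply HeightOneSpectrum.ext
      have h3 : w'.asIdeal ∈ v.asIdeal.primesOver (𝓞 F) :=
        ⟨w'.isPrime, ⟨(congrArg HeightOneSpectrum.asIdeal h).symm⟩⟩
      rw [hP] at h3
      exact h3
    · rintro rfl
      exact HeightOneSpectrum.ext hP2.over.symm
  · have i1 : P.IsPrime := hP1
    show P.inertiaDeg (𝓞 N) = 1
    rw [← hf]
    exact (Ideal.inertiaDegIn_eq_inertiaDeg v.asIdeal P Gal(F/N)).symm
  · have i1 : P.IsPrime := hP1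
    show P.ramificationIdx (𝓞 N) = 1
    rw [← he]
    exact (Ideal.ramificationIdxIn_eq_ramificationIdx v.asIdeal P Gal(F/N)).symm

/-- **Isomorphic fields.** -/
theorem lconcl_bij (hE : EllK) {N F : Type u} [Field N] [NumberField N] [Field F] [NumberField F]
    [Algebra N F] [Algebra K N] [Algebra K F] [IsScalarTower K N F]
    (hb : Function.Bijective (algebraMap N F)) {δ : N} (hδ : δ ≠ 0) (h : LConcl (Wc N δ)) :
    LConcl (Wc F (algebraMap N F δ)) := by
  have e : N ≃ₐ[N] F := AlgEquiv.ofBijective (Algebra.ofId N F) hb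
  have hgal : IsGalois N F := IsGalois.of_algEquiv e
  have h1 : Module.finrank N F = 1 := by
    rw [← e.toLinearEquiv.finrank_eq, Module.finrank_self]
  have hδ' : algebraMap N F δ ≠ 0 := by
    rw [Ne, map_eq_zero]
    exact hδ
  refine lconcl_one (pdatP hE (fm_Wc hδ)) (pdatP hE (fm_Wc hδ')) (fun v => ?_) h
  obtain ⟨w, hw1, hw2, hw3⟩ := place_one h1 v
  have hw : w.under (𝓞 N) = v := (hw1 w).2 rfl
  refine ⟨w, hw1, hw2, ?_⟩
  rw [psP_prime, psP_prime, ← Wc_map]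
  by_cases hg : Gd (Wc N δ) v
  · have hg' : Gd (Wc N δ) (w.under (𝓞 N)) := by
      rw [hw]
      exact hg
    rw [hv_up hE (fm_Wc hδ) w hg', hw2, pow_one, hw]
  · rw [hv_bad hg, hv_bad]
    intro h2
    have h3 := desc_gal hw3 h2
    rw [hw] at h3
    exact hg h3

end Pool.Agent.Lib.MP_1a91b9_ntM
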