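import Pool.Agent.Lib.MP_1a91b9_ntM.Chain
import Pool.Agent.Lib.MP_1a91b9_ntM.Base1
import Pool.Agent.Lib.MP_1a91b9_nuX.GL.EllA

/-!
# MQ: the hypotheses of the chain, from the bad reduction above `2`
-/

set_option autoImplicit false

namespace Pool.Agent.Lib.MP_1a91b9_ntM

open NumberField IsDedekindDomain WeierstrassCurve
  Pool.Agent.Lib.MP_1a91b9_nt Pool.Agent.Lib.MP_1a91b9_nuT Pool.Agent.Lib.MP_1a91b9_ntQ
open Pool.Agent.Lib.MP_1a91b9_nuX.GL
  Pool.Agent.Lib.MP_1a91b9_nuX.PG Pool.Agent.Lib.MP_1a91b9_nuX.PH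
open Pool.Agent.Lib.MP_1a91b9_nuX Pool.Agent.Lib.MP_1a91b9_nuX.LG

/-- the bad reduction at the places above `2` -/
def BadTwo : Prop := ∀ (F : Type) [Field F] [NumberField F] [Algebra K4 F] (A : List (𝓞 K4)),
  MQT F A → ∀ d : 𝓞 K4, d ≠ 0 → ∀ w : HeightOneSpectrum (𝓞 F), (2 : 𝓞 F) ∈ w.asIdeal →
    ¬ Gd (Wd F d) w

theorem ellK4 : EllK := ellK_four rfl rfl

theorem Wd_eq (F : Type*) [Field F] [Algebra K4 F] (d : 𝓞 K4) :
    Wd F d = Wc F (algebraMap K4 F (d : K4)) := rfl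

theorem am_ne {F : Type*} [Field F] [Algebra K4 F] {d : 𝓞 K4} (hd : d ≠ 0) :
    algebraMap K4 F (d : K4) ≠ 0 := by
  rw [Ne, map_eq_zero]
  intro h
  exact hd (RingOfIntegers.ext h)

theorem am_mul {F : Type*} [Field F] [Algebra K4 F] (a d : 𝓞 K4) :
    algebraMap K4 F ((a * d : 𝓞 K4) : K4) =
      algebraMap K4 F (a : K4) * algebraMap K4 F (d : K4) := by
  rw [← map_mul]
  rfl

/-- **The hypotheses of the chain.** -/
theorem chainHyp (hB : BadTwo) : ChainHyp := by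
  refine ⟨?_, ?_⟩
  · intro F _ _ _ hb d hd h
    have h1 : LConcl (Wc K4 (d : K4)) := h
    have hd' : (d : K4) ≠ 0 := fun h0 => hd (RingOfIntegers.ext h0)
    exact lconcl_bij ellK4 hb hd' h1
  · intro F F' _ _ _ _ _ _ _ _ A a x hx hn hgen hM d hd
    have hL := Pool.Agent.Lib.MP_1a91b9_ntT.S5.finrank_step x hn hgen
    have hM' : MQT F' (A ++ A.map (a * ·)) := MQT.step F F' A a x hx hn hgen hM
    have ha : a ≠ 0 := by
      rintro rfl
      apply hn
      refine ⟨0, ?_⟩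
      have h2 : x ^ 2 = 0 := by
        rw [hx]
        simp
      rw [map_zero, (pow_eq_zero_iff two_ne_zero).1 h2]
    have hx' : x ^ 2 = algebraMap F F' (algebraMap K4 F (a : K4)) := by
      rw [hx, ← IsScalarTower.algebraMap_apply K4 F F']
    have e1 : Wd F (a * d) = Wc F (algebraMap K4 F (a : K4) * algebraMap K4 F (d : K4)) := by
      rw [Wd_eq, am_mul]
    have e2 : Wd F' d = Wc F' (algebraMap F F' (algebraMap K4 F (d : K4))) := by
      rw [Wd_eq, ← IsScalarTower.algebraMap_apply K4 F F']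
    have h1 := locStep ellK4 hL hgen (am_ne ha) (am_ne hd) hx' (fun v hv => hB F A hM d hd v hv)
      (fun w hw => by
        rw [← e2]
        exact hB F' _ hM' d hd w hw)
    refine ⟨_, _, _, ?_, ?_, ?_, h1⟩
    · exact pdatP ellK4 (fm_Wc (am_ne hd))
    · rw [e1]
      exact pdatP ellK4 (fm_Wc (mul_ne_zero (am_ne ha) (am_ne hd)))
    · rw [e2, ← IsScalarTower.algebraMap_apply K4 F F']
      exact pdatP ellK4 (fm_Wc (am_ne hd))

end Pool.Agent.Lib.MP_1a91b9_ntM
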