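import Pool.Agent.Lib.MP_1a91b9_nt.TwistRank
import Pool.Agent.Lib.MP_1a91b9_ntT.S5.Tower

/-!
# The points of a form over a quadratic extension
-/

set_option autoImplicit false

namespace Pool.Agent.Lib.MP_1a91b9_ntM

open WeierstrassCurve Pool.Agent.Lib.MP_1a91b9_nt

universe u

/-- an abelian group with an involution which has finitely many invariants and anti-invariants is finite -/
theorem finite_involution {A : Type u} [AddCommGroup A] (ρ : A →+ A) (hρ : ∀ a, ρ (ρ a) = a)
    (h1 : {a : A | ρ a = a}.Finite) (h2 : {a : A | ρ a = -a}.Finite) : Finite A := by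
  let f : A → A × A := fun a => (a + ρ a, a - ρ a)
  have h3 : ∀ a, f a ∈ {a : A | ρ a = a} ×ˢ {a : A | ρ a = -a} := by
    intro a
    refine ⟨?_, ?_⟩
    · show ρ (a + ρ a) = a + ρ a
      rw [map_add, hρ, add_comm]
    · show ρ (a - ρ a) = -(a - ρ a)
      rw [map_sub, hρ, neg_sub]
  have h4 : Set.Finite (Set.univ : Set A) := by
    refine Set.Finite.of_finite_fibers (fun a => a + ρ a) (h1.subset ?_) ?_
    · rintro _ ⟨a, -, rfl⟩
      exact (h3 a).1
    · rintro _ ⟨a, -, rfl⟩
      have h5 : Set.Finite ((fun b => a + b) '' {b : A | ρ b = -b}) := h2.image _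
      refine h5.subset ?_
      rintro b ⟨-, hb⟩
      have hb' : b + ρ b = a + ρ a := hb
      refine ⟨b - a, ?_, ?_⟩
      · show ρ (b - a) = -(b - a)
        rw [map_sub, neg_sub]
        rw [← sub_eq_zero]
        have : ρ b - ρ a - (a - b) = (b + ρ b) - (a + ρ a) := by abel
        rw [this, hb', sub_self]
      · show a + (b - a) = b
        abel
  exact Set.finite_univ_iff.1 h4

section short
variable {K L : Type u} [Field K] [NumberField K] [Field L] [NumberField L] [Algebra K L]

/-- The curve `y² = x³ + A x + B` has finitely many points over the quadratic extension `L` of `K` if the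
curve and its twist have finitely many points over `K`. -/
theorem short_finite (A B d : K) (hd : d ≠ 0) (hsq : ¬ IsSquare d)
    (hL : Module.finrank K L = 2) (δ : L) (hδ : δ ^ 2 = algebraMap K L d)
    (S S' : WeierstrassCurve K) (hS : S = ⟨0, 0, 0, A, B⟩)
    (hS' : S' = ⟨0, 0, 0, d ^ 2 * A, d ^ 3 * B⟩) (hfin : Finite S.toAffine.Point)
    (hfin' : Finite S'.toAffine.Point) : Finite (S.baseChange L).toAffine.Point := by
  have : Algebra.IsQuadraticExtension K L := ⟨hL⟩
  have hgal : IsGalois K L := inferInstance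
  have hδ0 : δ ≠ 0 := by
    rintro rfl
    rw [zero_pow two_ne_zero, eq_comm, map_eq_zero] at hδ
    exact hd hδ
  -- the automorphism
  have hσ : ∃ σ : Gal(L/K), σ δ = -δ := by
    have hs' : δ ∉ Set.range (algebraMap K L) := by
      rintro ⟨a, rfl⟩
      apply hsq
      refine ⟨a, ?_⟩
      apply (algebraMap K L).injective
      rw [← hδ, map_mul, sq]
    have h := (IsGalois.mem_range_algebraMap_iff_fixed (F := K) (E := L) δ).not.mp hs'
    push Not at h
    obtain ⟨σ, hσ⟩ := h
    refine ⟨σ, ?_⟩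
    have h2 : (σ δ) ^ 2 = δ ^ 2 := by
      rw [← map_pow, hδ, AlgEquiv.commutes]
    rcases sq_eq_sq_iff_eq_or_eq_neg.mp h2 with h3 | h3
    · exact absurd h3 hσ
    · exact h3
  obtain ⟨σ, hσ⟩ := hσ
  have hσ1 : σ ≠ 1 := by
    rintro rfl
    rw [AlgEquiv.one_apply] at hσ
    have h3 : (2 : L) * δ = 0 := by linear_combination hσ
    rcases mul_eq_zero.mp h3 with h4 | h4
    · exact two_ne_zero h4
    · exact hδ0 h4
  have hcard : Nat.card Gal(L/K) = 2 := by
    rw [IsGalois.card_aut_eq_finrank, hL]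
  have hall : ∀ τ : Gal(L/K), τ = 1 ∨ τ = σ := by
    intro τ
    obtain ⟨y, hy, hyu⟩ := (Nat.card_eq_two_iff' (1 : Gal(L/K))).mp hcard
    by_cases h : τ = 1
    · exact Or.inl h
    · right
      rw [hyu τ h, hyu σ hσ1]
  have hσσ : σ * σ = 1 := by
    rcases hall (σ * σ) with h | h
    · exact h
    · exact absurd (mul_eq_left.mp h) hσ1
  have hfix : ∀ z : L, σ z = z → ∃ a : K, algebraMap K L a = z := by
    intro z hz
    have h := (IsGalois.mem_range_algebraMap_iff_fixed (F := K) (E := L) z).mpr (by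
      intro τ
      rcases hall τ with h | h
      · rw [h, AlgEquiv.one_apply]
      · rw [h, hz])
    exact h
  let _ : DecidableEq L := Classical.decEq L
  let _ : DecidableEq K := Classical.decEq K
  have hbcS : S.baseChange K = S := S.map_id
  have hbc : S'.baseChange K = S' := S'.map_id
  let ρ : (S.baseChange L).toAffine.Point →+ (S.baseChange L).toAffine.Point :=
    (galRho (M := L) S σ).toAddMonoidHom
  have hρρ : ∀ a, ρ (ρ a) = a := by
    intro a
    show galRho (M := L) S σ (galRho (M := L) S σ a) = a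
    rw [← Module.End.mul_apply, ← map_mul, hσσ, map_one]
    rfl
  have ha1 : (S.baseChange L).toAffine.a₁ = 0 := by
    change algebraMap K L S.a₁ = 0
    rw [hS, map_zero]
  have ha3 : (S.baseChange L).toAffine.a₃ = 0 := by
    change algebraMap K L S.a₃ = 0
    rw [hS, map_zero]
  have hnegY : ∀ X Y : L, (S.baseChange L).toAffine.negY X Y = -Y := by
    intro X Y
    rw [WeierstrassCurve.Affine.negY, ha1, ha3, zero_mul, sub_zero, sub_zero]
  refine finite_involution ρ hρρ ?_ ?_
  · -- the invariants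
    have hf0 : Finite (S.baseChange K).toAffine.Point := by rw [hbcS]; exact hfin
    let f : (S.baseChange K).toAffine.Point → (S.baseChange L).toAffine.Point :=
      (WeierstrassCurve.Affine.Point.map (W' := S) (Algebra.ofId K L))
    refine (Set.finite_range f).subset ?_
    rintro P hP
    rcases P with _ | ⟨x, y, hxy⟩
    · exact ⟨0, map_zero _⟩
    · change WeierstrassCurve.Affine.Point.some _ _ _ =
          WeierstrassCurve.Affine.Point.some _ _ _ at hP
      rw [WeierstrassCurve.Affine.Point.some.injEq] at hP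
      obtain ⟨hx, hy⟩ := hP
      have hx' : σ x = x := hx
      have hy' : σ y = y := hy
      obtain ⟨a, rfl⟩ := hfix x hx'
      obtain ⟨b, rfl⟩ := hfix y hy'
      exact ⟨WeierstrassCurve.Affine.Point.some a b
          ((WeierstrassCurve.Affine.baseChange_nonsingular S.toAffine
            (Algebra.ofId K L).injective _ _).mp hxy), rfl⟩
  -- the anti-invariants
  have hf0 : Finite (S'.baseChange K).toAffine.Point := by rw [hbc]; exact hfin'
  let f : (S'.baseChange K).toAffine.Point →ₗ[ℤ] (S'.baseChange L).toAffine.Point :=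
    (WeierstrassCurve.Affine.Point.map (W' := S') (Algebra.ofId K L)).toIntLinearMap
  obtain ⟨e, he⟩ := twist_equiv (S.baseChange L) (S'.baseChange L)
    ⟨(Units.mk0 δ hδ0)⁻¹, 0, 0, 0⟩ (by
      have e2 : algebraMap K L (d ^ 2) = δ ^ 4 := by
        rw [map_pow, ← hδ]; ring
      have e3 : algebraMap K L (d ^ 3) = δ ^ 6 := by
        rw [map_pow, ← hδ]; ring
      rw [hS, hS']
      refine WeierstrassCurve.ext ?_ ?_ ?_ ?_ ?_
      · simp [variableChange_a₁, WeierstrassCurve.baseChange]
      · simp [variableChange_a₂, WeierstrassCurve.baseChange]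
      · simp [variableChange_a₃, WeierstrassCurve.baseChange]
      · rw [variableChange_a₄]
        change algebraMap K L (d ^ 2 * A) = _
        rw [map_mul, e2]
        simp [WeierstrassCurve.baseChange]
      · rw [variableChange_a₆]
        change algebraMap K L (d ^ 3 * B) = _
        rw [map_mul, e3]
        simp [WeierstrassCurve.baseChange])
  have he' : ∀ (x y : L) (h : (S'.baseChange L).toAffine.Nonsingular x y), ∃ h',
      e (WeierstrassCurve.Affine.Point.some x y h) =
        WeierstrassCurve.Affine.Point.some (δ⁻¹ ^ 2 * x) (δ⁻¹ ^ 3 * y) h' := by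
    intro x y h
    obtain ⟨h', hh⟩ := he x y h
    have e1 : (((⟨(Units.mk0 δ hδ0)⁻¹, 0, 0, 0⟩ : WeierstrassCurve.VariableChange L).u : Lˣ) : L) ^ 2
        * x + 0 = δ⁻¹ ^ 2 * x := by simp
    have e2 : (((⟨(Units.mk0 δ hδ0)⁻¹, 0, 0, 0⟩ : WeierstrassCurve.VariableChange L).u : Lˣ) : L) ^ 3
        * y + (((⟨(Units.mk0 δ hδ0)⁻¹, 0, 0, 0⟩ : WeierstrassCurve.VariableChange L).u : Lˣ) : L) ^ 2
        * 0 * x + 0 = δ⁻¹ ^ 3 * y := by simp
    have h'' : (S.baseChange L).toAffine.Nonsingular (δ⁻¹ ^ 2 * x) (δ⁻¹ ^ 3 * y) := by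
      rw [← e1, ← e2]
      exact h'
    refine ⟨h'', ?_⟩
    rw [hh, WeierstrassCurve.Affine.Point.some.injEq]
    exact ⟨e1, e2⟩
  let g : (S'.baseChange K).toAffine.Point → (S.baseChange L).toAffine.Point := fun Q => e (f Q)
  have hδi : σ δ⁻¹ = -δ⁻¹ := by
    rw [map_inv₀, hσ, inv_neg]
  have hδi0 : δ⁻¹ ≠ 0 := inv_ne_zero hδ0
  refine (Set.finite_range g).subset ?_
  intro P hP
  obtain ⟨Q, rfl⟩ := e.surjective P
  rcases Q with _ | ⟨x, y, hxy⟩
  · refine ⟨0, ?_⟩
    show e (f 0) = _
    rw [map_zero]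
    rfl
  · obtain ⟨h', hh⟩ := he' x y hxy
    have hP' : galRho S σ (e (WeierstrassCurve.Affine.Point.some x y hxy)) =
      -(e (WeierstrassCurve.Affine.Point.some x y hxy)) := hP
    rw [hh, WeierstrassCurve.Affine.Point.neg_some] at hP'
    change WeierstrassCurve.Affine.Point.some _ _ _ =
      WeierstrassCurve.Affine.Point.some _ _ _ at hP'
    rw [WeierstrassCurve.Affine.Point.some.injEq] at hP'
    obtain ⟨hx, hy⟩ := hP'
    have hx' : σ (δ⁻¹ ^ 2 * x) = δ⁻¹ ^ 2 * x := hx
    have hy' : σ (δ⁻¹ ^ 3 * y) = -(δ⁻¹ ^ 3 * y) := by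
      rw [← hnegY (δ⁻¹ ^ 2 * x)]
      exact hy
    rw [map_mul, map_pow, hδi, neg_sq] at hx'
    rw [map_mul, map_pow, hδi] at hy'
    have hx2 : σ x = x := mul_left_cancel₀ (pow_ne_zero 2 hδi0) hx'
    have hy2 : σ y = y := by
      refine mul_left_cancel₀ (pow_ne_zero 3 hδi0) ?_
      linear_combination -hy'
    obtain ⟨a, rfl⟩ := hfix x hx2
    obtain ⟨b, rfl⟩ := hfix y hy2
    refine ⟨WeierstrassCurve.Affine.Point.some a b
      ((WeierstrassCurve.Affine.baseChange_nonsingular S'.toAffine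
        (Algebra.ofId K L).injective _ _).mp hxy), rfl⟩

end short

/-- the step for the curves `y² = x³ - d² x` -/
theorem finite_step {N N' : Type u} [Field N] [NumberField N] [Field N'] [NumberField N']
    [Algebra N N'] (a : N) (x : N') (hx : x ^ 2 = algebraMap N N' a)
    (hn : ¬ ∃ y : N, algebraMap N N' y = x)
    (hgen : ∀ z : N', ∃ b c : N, z = algebraMap N N' b + algebraMap N N' c * x) (d : N)
    (h1 : Finite (⟨0, 0, 0, -d ^ 2, 0⟩ : WeierstrassCurve N).toAffine.Point)
    (h2 : Finite (⟨0, 0, 0, -(a * d) ^ 2, 0⟩ : WeierstrassCurve N).toAffine.Point) :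
    Finite (⟨0, 0, 0, -(algebraMap N N' d) ^ 2, 0⟩ : WeierstrassCurve N').toAffine.Point := by
  have hsq : ¬ IsSquare a := by
    rintro ⟨b, rfl⟩
    rw [map_mul, ← sq] at hx
    rcases sq_eq_sq_iff_eq_or_eq_neg.1 hx with h | h
    · exact hn ⟨b, h.symm⟩
    · exact hn ⟨-b, by rw [map_neg, h]⟩
  have ha : a ≠ 0 := by
    rintro rfl
    exact hsq ⟨0, by rw [mul_zero]⟩
  have h3 := short_finite (-d ^ 2) 0 a ha hsq
    (Pool.Agent.Lib.MP_1a91b9_ntT.S5.finrank_step x hn hgen) x hx ⟨0, 0, 0, -d ^ 2, 0⟩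
    ⟨0, 0, 0, -(a * d) ^ 2, 0⟩ rfl
    (by
      refine WeierstrassCurve.ext rfl rfl rfl ?_ ?_
      · show -(a * d) ^ 2 = a ^ 2 * -d ^ 2
        ring
      · show (0 : N) = a ^ 3 * 0
        ring) h1 h2
  have h4 : (⟨0, 0, 0, -d ^ 2, 0⟩ : WeierstrassCurve N).baseChange N' =
      ⟨0, 0, 0, -(algebraMap N N' d) ^ 2, 0⟩ := by
    refine WeierstrassCurve.ext ?_ ?_ ?_ ?_ ?_
    · exact map_zero _
    · exact map_zero _
    · exact map_zero _
    · show algebraMap N N' (-d ^ 2) = _
      rw [map_neg, map_pow]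
    · exact map_zero _
  rw [h4] at h3
  exact h3

end Pool.Agent.Lib.MP_1a91b9_ntM
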