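import Pool.Agent.Lib.MP_1a91b9_ntM.F4
import Pool.Agent.Lib.MP_1a91b9_ntM.F5
import Pool.Agent.Lib.MP_1a91b9_ntM.F.Cls

/-!
# MQ: from `ℚ(i)` to a multiquadratic extension

`ChainHyp`: what has to be known about the Hecke characters of the curves `y² = x³ - d² x`.
-/

set_option autoImplicit false

namespace Pool.Agent.Lib.MP_1a91b9_ntM

open NumberField IsDedekindDomain Polynomial WeierstrassCurve
  Pool.Agent.Lib.MP_1a91b9_nt Pool.Agent.Lib.MP_1a91b9_nuT Pool.Agent.Lib.MP_1a91b9_ntQ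
open Pool.Agent.Lib.MP_1a91b9_nuX.PG Pool.Agent.Lib.MP_1a91b9_nuX.LG

/-- the curve `y² = x³ - d² x` over the field `F` -/
noncomputable def Wd (F : Type*) [Field F] [Algebra K4 F] (d : 𝓞 K4) : WeierstrassCurve F :=
  ⟨0, 0, 0, -(algebraMap K4 F (d : K4)) ^ 2, 0⟩

theorem Wd_K4 (d : 𝓞 K4) : Wd K4 d = ⟨0, 0, 0, -(d : K4) ^ 2, 0⟩ := rfl

theorem Wd_map {N F : Type*} [Field N] [Field F] [Algebra K4 N]
    [Algebra K4 F] [Algebra N F] [IsScalarTower K4 N F] (d : 𝓞 K4) :
    (Wd N d).map (algebraMap N F) = Wd F d := by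
  refine WeierstrassCurve.ext ?_ ?_ ?_ ?_ ?_
  · exact map_zero _
  · exact map_zero _
  · exact map_zero _
  · show algebraMap N F (-(algebraMap K4 N (d : K4)) ^ 2) = -(algebraMap K4 F (d : K4)) ^ 2
    rw [map_neg, map_pow, ← IsScalarTower.algebraMap_apply K4 N F]
  · exact map_zero _

/-- what has to be known about the characters of the curves -/
structure ChainHyp : Prop where
  base : ∀ (F : Type) [Field F] [NumberField F] [Algebra K4 F],
    Function.Bijective (algebraMap K4 F) → ∀ d : 𝓞 K4, d ≠ 0 → LConcl (Wd K4 d) → LConcl (Wd F d)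
  step : ∀ (F F' : Type) [Field F] [NumberField F] [Algebra K4 F] [Field F'] [NumberField F']
      [Algebra K4 F'] [Algebra F F'] [IsScalarTower K4 F F'] (A : List (𝓞 K4)) (a : 𝓞 K4)
      (x : F'), x ^ 2 = algebraMap K4 F' (a : K4) → (¬ ∃ y : F, algebraMap F F' y = x) →
      (∀ z : F', ∃ b c : F, z = algebraMap F F' b + algebraMap F F' c * x) →
      MQT F A → ∀ d : 𝓞 K4, d ≠ 0 →
      ∃ (ps pa : Ideal (𝓞 F) → 𝓞 K4) (ps' : Ideal (𝓞 F') → 𝓞 K4), PDat F (Wd F d) ps ∧
        PDat F (Wd F (a * d)) pa ∧ PDat F' (Wd F' d) ps' ∧ LocStep ps pa ps'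

/-- the points over an isomorphic field -/
theorem finite_base {F : Type} [Field F] [NumberField F] [Algebra K4 F]
    (hb : Function.Bijective (algebraMap K4 F)) (d : 𝓞 K4)
    (h : Finite (Wd K4 d).toAffine.Point) : Finite (Wd F d).toAffine.Point := by
  obtain ⟨e, he⟩ : ∃ e : K4 ≃+* F, ∀ x, e x = algebraMap K4 F x :=
    ⟨RingEquiv.ofBijective (algebraMap K4 F) hb, fun x => rfl⟩
  have h1 : (Wd F d).map (e.symm : F →+* K4) = Wd K4 d := by
    refine WeierstrassCurve.ext ?_ ?_ ?_ ?_ ?_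
    · exact map_zero _
    · exact map_zero _
    · exact map_zero _
    · show e.symm (-(algebraMap K4 F (d : K4)) ^ 2) = -(d : K4) ^ 2
      rw [map_neg, map_pow, ← he, RingEquiv.symm_apply_apply]
    · exact map_zero _
  have h2 : Finite ((Wd F d).map (e.symm : F →+* K4)).toAffine.Point := by
    rw [h1]
    exact h
  exact Finite.of_injective _ (TW.locMap_injective (e.symm : F →+* K4) (Wd F d))

/-- **The chain.** -/
theorem chain (H : ChainHyp) {F : Type} [Field F] [NumberField F] [Algebra K4 F]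
    {A : List (𝓞 K4)} (h : MQT F A) : ∀ d : 𝓞 K4, d ≠ 0 → (∀ b ∈ A, LConcl (Wd K4 (b * d)) ∧
      Finite (Wd K4 (b * d)).toAffine.Point) → LConcl (Wd F d) ∧ Finite (Wd F d).toAffine.Point := by
  induction h with
  | base F hb =>
    intro d hd hA
    have h1 := hA 1 (List.mem_singleton_self 1)
    rw [one_mul] at h1
    exact ⟨H.base F hb d hd h1.1, finite_base hb d h1.2⟩
  | step F F' A a x hx hn hgen h ih =>
    intro d hd hA
    have ha : a ≠ 0 := by
      rintro rfl
      apply hn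
      refine ⟨0, ?_⟩
      have h2 : x ^ 2 = 0 := by
        rw [hx]
        simp
      rw [map_zero, (pow_eq_zero_iff two_ne_zero).1 h2]
    obtain ⟨h1, h2⟩ := ih d hd fun b hb => hA b (List.mem_append_left _ hb)
    obtain ⟨h3, h4⟩ := ih (a * d) (mul_ne_zero ha hd) fun b hb => by
      have h5 := hA (a * b) (List.mem_append_right _ (List.mem_map_of_mem hb))
      rw [show a * b * d = b * (a * d) by ring] at h5
      exact h5
    obtain ⟨ps, pa, ps', f1, f2, f3, hL⟩ := H.step F F' A a x hx hn hgen h d hd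
    refine ⟨lconcl_step f1 f2 f3 hL h1 h3, ?_⟩
    have h6 := finite_step (algebraMap K4 F (a : K4)) x
      (by rw [hx, ← IsScalarTower.algebraMap_apply K4 F F']) hn hgen (algebraMap K4 F (d : K4)) h2
      (by
        have e : Wd F (a * d) = ⟨0, 0, 0, -(algebraMap K4 F (a : K4) * algebraMap K4 F (d : K4)) ^ 2,
            0⟩ := by
          rw [← map_mul]
          rfl
        rw [← e]
        exact h4)
    rw [← IsScalarTower.algebraMap_apply K4 F F'] at h6
    exact h6

end Pool.Agent.Lib.MP_1a91b9_ntM
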