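import Pool.Agent.Lib.MP_1a91b9_ntM.PDat

/-!
# The L-series over a quadratic extension
-/

set_option autoImplicit false

namespace Pool.Agent.Lib.MP_1a91b9_ntM

open NumberField IsDedekindDomain Polynomial WeierstrassCurve
  Pool.Agent.Lib.MP_1a91b9_nt Pool.Agent.Lib.MP_1a91b9_nuT
open Pool.Agent.Lib.MP_1a91b9_nuT.S4 (Lf Over)
open Pool.Agent.Lib.MP_1a91b9_nuX.PG Pool.Agent.Lib.MP_1a91b9_nuX.LG
open Pool.Agent.Lib.MP_1a91b9_nuX.PA (pC bC_eq)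

universe u

variable [CD]

/-- the local factors of a curve over `F` in terms of the local factors of the curve and of its twist over the
subfield `N` -/
def LocStep {N F : Type*} [Field N] [NumberField N] [Field F] [NumberField F] [Algebra N F]
    (ps pa : Ideal (𝓞 N) → 𝓞 K) (ps' : Ideal (𝓞 F) → 𝓞 K) : Prop :=
  ∀ (v : HeightOneSpectrum (𝓞 N)) (s : Finset (HeightOneSpectrum (𝓞 F))),
    (∀ w : HeightOneSpectrum (𝓞 F), w ∈ s ↔ w.under (𝓞 N) = v) →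
    ∏ w ∈ s, (1 - Polynomial.C (ps' w.asIdeal) * Polynomial.X ^ w.asIdeal.inertiaDeg (𝓞 N)) =
      (1 - Polynomial.C (ps v.asIdeal) * Polynomial.X) *
        (1 - Polynomial.C (pa v.asIdeal) * Polynomial.X)

section
variable {N F : Type u} [Field N] [NumberField N] [Field F] [NumberField F] [Algebra N F]
  {ps pa : Ideal (𝓞 N) → 𝓞 K} {ps' : Ideal (𝓞 F) → 𝓞 K}

/-- the complex form -/
theorem LocStep.complex [Algebra K F] (h : LocStep ps pa ps') (v : HeightOneSpectrum (𝓞 N)) (x : ℂ) :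
    ∏ w : Over F v, (1 - bC ps' w.1.asIdeal * x ^ w.1.asIdeal.inertiaDeg (𝓞 N)) =
      (1 - bC ps v.asIdeal * x) * (1 - bC pa v.asIdeal * x) := by
  obtain ⟨τ, hτ⟩ : ∃ τ : 𝓞 K →+* ℂ, τ = (starRingEnd ℂ).comp
      (embK.toRingHom.comp (algebraMap (𝓞 K) K)) := ⟨_, rfl⟩
  obtain ⟨s, hs, hp⟩ := prod_over (F := F) v
    (fun w => 1 - bC ps' w.asIdeal * x ^ w.asIdeal.inertiaDeg (𝓞 N))
  have h1 := h v s hs
  have h2 := congrArg (eval₂ τ x) h1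
  rw [eval₂_finsetProd] at h2
  have e1 : ∀ w : HeightOneSpectrum (𝓞 F),
      eval₂ τ x (1 - Polynomial.C (ps' w.asIdeal) * Polynomial.X ^ w.asIdeal.inertiaDeg (𝓞 N)) =
        1 - bC ps' w.asIdeal * x ^ w.asIdeal.inertiaDeg (𝓞 N) := by
    intro w
    simp only [eval₂_mul, eval₂_sub, eval₂_one, eval₂_C, eval₂_X, eval₂_pow]
    rw [hτ]
    rfl
  rw [Finset.prod_congr rfl fun w _ => e1 w] at h2
  rw [← hp, h2]
  simp only [eval₂_mul, eval₂_sub, eval₂_one, eval₂_C, eval₂_X]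
  rw [hτ]
  rfl

/-- the complex form, the conjugate character -/
theorem LocStep.complex' [Algebra K F] (h : LocStep ps pa ps') (v : HeightOneSpectrum (𝓞 N)) (x : ℂ) :
    ∏ w : Over F v, (1 - pC ps' w.1.asIdeal * x ^ w.1.asIdeal.inertiaDeg (𝓞 N)) =
      (1 - pC ps v.asIdeal * x) * (1 - pC pa v.asIdeal * x) := by
  have h1 := congrArg (starRingEnd ℂ) (h.complex v ((starRingEnd ℂ) x))
  rw [map_prod] at h1
  simp only [map_mul, map_sub, map_one, map_pow, bC_eq, Complex.conj_conj] at h1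
  exact h1

/-- An Euler product over `F` as an Euler product over `N`. -/
theorem Lf_over (f : Ideal (𝓞 F) → ℂ) (h1 : f 1 = 1) (h2 : ∀ I J, f (I * J) = f I * f J)
    (h3 : ∀ I, ‖f I‖ ≤ (Ideal.absNorm I : ℝ) ^ (1 / 2 : ℝ)) (s : ℂ) (hs : 3 / 2 < s.re)
    {g : HeightOneSpectrum (𝓞 N) → ℂ} {a : ℂ} (hg : HasProd g a)
    (h : ∀ v : HeightOneSpectrum (𝓞 N), ∏ w : Over F v,
      (1 - f w.1.asIdeal * ((Ideal.absNorm v.asIdeal : ℂ) ^ (-s)) ^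
        w.1.asIdeal.inertiaDeg (𝓞 N)) = (g v)⁻¹) : Lf f s = a := by
  have h4 := (S4.hasProd_Lf f h1 h2 (1 / 2) (by norm_num) h3 s (by linarith)).2
  have h5 := S4.hasProd_over (F := N) (F' := F) _ _ h4
  have e : (fun v : HeightOneSpectrum (𝓞 N) => ∏ w : Over F v,
      (1 - f w.1.asIdeal * (Ideal.absNorm w.1.asIdeal : ℂ) ^ (-s))⁻¹) = g := by
    funext v
    rw [← inv_inv (g v), ← h v, ← Finset.prod_inv_distrib]
    refine Finset.prod_congr rfl fun w _ => ?_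
    have i0 : v.asIdeal.IsMaximal := v.isMaximal
    have i1 : w.1.asIdeal.IsMaximal := w.1.isMaximal
    have i2 : w.1.asIdeal.LiesOver v.asIdeal := ⟨w.2.symm⟩
    have h1 := Ideal.absNorm_pow_inertiaDeg v.asIdeal w.1.asIdeal
    rw [← h1, Nat.cast_pow, natCast_pow_cpow]
  rw [e] at h5
  exact h5.unique hg

/-- the L-series of the characters -/
theorem Lf_step (f₁ f₂ : Ideal (𝓞 N) → ℂ) (f' : Ideal (𝓞 F) → ℂ)
    (h11 : f₁ 1 = 1) (h12 : ∀ I J, f₁ (I * J) = f₁ I * f₁ J)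
    (h13 : ∀ I, ‖f₁ I‖ ≤ (Ideal.absNorm I : ℝ) ^ (1 / 2 : ℝ))
    (h21 : f₂ 1 = 1) (h22 : ∀ I J, f₂ (I * J) = f₂ I * f₂ J)
    (h23 : ∀ I, ‖f₂ I‖ ≤ (Ideal.absNorm I : ℝ) ^ (1 / 2 : ℝ))
    (h31 : f' 1 = 1) (h32 : ∀ I J, f' (I * J) = f' I * f' J)
    (h33 : ∀ I, ‖f' I‖ ≤ (Ideal.absNorm I : ℝ) ^ (1 / 2 : ℝ))
    (h : ∀ (v : HeightOneSpectrum (𝓞 N)) (x : ℂ),
      ∏ w : Over F v, (1 - f' w.1.asIdeal * x ^ w.1.asIdeal.inertiaDeg (𝓞 N)) =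
        (1 - f₁ v.asIdeal * x) * (1 - f₂ v.asIdeal * x)) (s : ℂ) (hs : 3 / 2 < s.re) :
    Lf f' s = Lf f₁ s * Lf f₂ s := by
  have hs' : 1 + 1 / 2 < s.re := by linarith
  have h1 := (S4.hasProd_Lf f₁ h11 h12 (1 / 2) (by norm_num) h13 s hs').2
  have h2 := (S4.hasProd_Lf f₂ h21 h22 (1 / 2) (by norm_num) h23 s hs').2
  refine Lf_over f' h31 h32 h33 s hs (h1.mul h2) fun v => ?_
  rw [h v, mul_inv, inv_inv, inv_inv]

/-- the L-series of the characters, extensions of degree one -/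
theorem Lf_one (f₁ : Ideal (𝓞 N) → ℂ) (f' : Ideal (𝓞 F) → ℂ)
    (h11 : f₁ 1 = 1) (h12 : ∀ I J, f₁ (I * J) = f₁ I * f₁ J)
    (h13 : ∀ I, ‖f₁ I‖ ≤ (Ideal.absNorm I : ℝ) ^ (1 / 2 : ℝ))
    (h31 : f' 1 = 1) (h32 : ∀ I J, f' (I * J) = f' I * f' J)
    (h33 : ∀ I, ‖f' I‖ ≤ (Ideal.absNorm I : ℝ) ^ (1 / 2 : ℝ))
    (h : ∀ (v : HeightOneSpectrum (𝓞 N)) (x : ℂ),
      ∏ w : Over F v, (1 - f' w.1.asIdeal * x ^ w.1.asIdeal.inertiaDeg (𝓞 N)) =
        (1 - f₁ v.asIdeal * x)) (s : ℂ) (hs : 3 / 2 < s.re) : Lf f' s = Lf f₁ s := by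
  have hs' : 1 + 1 / 2 < s.re := by linarith
  have h1 := (S4.hasProd_Lf f₁ h11 h12 (1 / 2) (by norm_num) h13 s hs').2
  refine Lf_over f' h31 h32 h33 s hs h1 fun v => ?_
  rw [h v, inv_inv]

end

/-- **The step.** -/
theorem lconcl_step {N F : Type u} [Field N] [NumberField N] [Field F] [NumberField F]
    [Algebra N F] [Algebra K N] [Algebra K F] {W Wa : WeierstrassCurve N}
    {W' : WeierstrassCurve F} {ps pa : Ideal (𝓞 N) → 𝓞 K} {ps' : Ideal (𝓞 F) → 𝓞 K}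
    (h : PDat N W ps) (ha : PDat N Wa pa) (h' : PDat F W' ps') (hL : LocStep ps pa ps')
    (g1 : LConcl W) (g2 : LConcl Wa) : LConcl W' := by
  obtain ⟨g, hg, hg2, hg1⟩ := g1
  obtain ⟨k, hk, hk2, hk1⟩ := g2
  refine ⟨fun s => g s * k s, hg.mul hk, fun s hs => ?_, mul_ne_zero hg1 hk1⟩
  have e1 := Lf_step (pC ps) (pC pa) (pC ps') h.pC_one h.pC_mul h.nrm ha.pC_one ha.pC_mul ha.nrm
    h'.pC_one h'.pC_mul h'.nrm hL.complex' s hs
  have e2 := Lf_step (bC ps) (bC pa) (bC ps') h.bC_one h.bC_mul h.norm_bC ha.bC_one ha.bC_mul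
    ha.norm_bC h'.bC_one h'.bC_mul h'.norm_bC hL.complex s hs
  show g s * k s = _
  rw [hg2 s hs, hk2 s hs, h.ser s hs, ha.ser s hs, h'.ser s hs, e1, e2]
  ring

/-- **Isomorphic fields.** -/
theorem lconcl_one {N F : Type u} [Field N] [NumberField N] [Field F] [NumberField F]
    [Algebra N F] [Algebra K N] [Algebra K F] {W : WeierstrassCurve N}
    {W' : WeierstrassCurve F} {ps : Ideal (𝓞 N) → 𝓞 K} {ps' : Ideal (𝓞 F) → 𝓞 K}
    (h : PDat N W ps) (h' : PDat F W' ps')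
    (hL : ∀ v : HeightOneSpectrum (𝓞 N), ∃ w : HeightOneSpectrum (𝓞 F),
      (∀ w' : HeightOneSpectrum (𝓞 F), w'.under (𝓞 N) = v ↔ w' = w) ∧
      w.asIdeal.inertiaDeg (𝓞 N) = 1 ∧ ps' w.asIdeal = ps v.asIdeal)
    (g1 : LConcl W) : LConcl W' := by
  obtain ⟨g, hg, hg2, hg1⟩ := g1
  refine ⟨g, hg, fun s hs => ?_, hg1⟩
  have hu : ∀ (f₁ : Ideal (𝓞 N) → ℂ) (f' : Ideal (𝓞 F) → ℂ),
      (∀ (v : HeightOneSpectrum (𝓞 N)) (w : HeightOneSpectrum (𝓞 F)),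
        ps' w.asIdeal = ps v.asIdeal → f' w.asIdeal = f₁ v.asIdeal) →
      ∀ (v : HeightOneSpectrum (𝓞 N)) (x : ℂ),
      ∏ w : Over F v, (1 - f' w.1.asIdeal * x ^ w.1.asIdeal.inertiaDeg (𝓞 N)) =
        (1 - f₁ v.asIdeal * x) := by
    intro f₁ f' hf v x
    obtain ⟨w, hw1, hw2, hw3⟩ := hL v
    have hw0 : w.asIdeal.under (𝓞 N) = v.asIdeal :=
      congrArg HeightOneSpectrum.asIdeal ((hw1 w).2 rfl)
    have huniv : (Finset.univ : Finset (Over F v)) = {⟨w, hw0⟩} := by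
      ext w'
      simp only [Finset.mem_univ, Finset.mem_singleton, true_iff]
      exact Subtype.ext ((hw1 w'.1).1 (HeightOneSpectrum.ext w'.2))
    rw [huniv, Finset.prod_singleton, hw2, pow_one, hf v w hw3]
  have e1 := Lf_one (pC ps) (pC ps') h.pC_one h.pC_mul h.nrm
    h'.pC_one h'.pC_mul h'.nrm (hu _ _ fun v w e => by rw [pC, pC, e]) s hs
  have e2 := Lf_one (bC ps) (bC ps') h.bC_one h.bC_mul h.norm_bC
    h'.bC_one h'.bC_mul h'.norm_bC (hu _ _ fun v w e => by rw [bC, bC, e]) s hs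
  rw [hg2 s hs, h.ser s hs, h'.ser s hs, e1, e2]

end Pool.Agent.Lib.MP_1a91b9_ntM
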