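import Pool.Agent.Lib.MP_1a91b9_ntM.Qd
import Pool.Agent.Lib.MP_1a91b9_ntM.F4
import Pool.Agent.Lib.MP_1a91b9_ntQ.Base

/-!
# The local factors of `y² = x³ - δ² x` in a quadratic extension

`locStep`: for a quadratic extension `F' = F(√α)` and a place `v` of `F`, the product over the places `w` of `F'` above `v` of the
factors `1 - ps'(w) X ^ f(w)` is `(1 - ps(v) X) (1 - pa(v) X)`, where `ps`, `pa` and `ps'` belong to `y² = x³ - δ² x` over `F`, its twist
by `α` and the same curve over `F'`, provided that these curves have bad reduction at the places above `2`.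
-/

set_option autoImplicit false

namespace Pool.Agent.Lib.MP_1a91b9_ntM

open NumberField IsDedekindDomain WeierstrassCurve
  Pool.Agent.Lib.MP_1a91b9_nt Pool.Agent.Lib.MP_1a91b9_nuT Pool.Agent.Lib.MP_1a91b9_ntQ
open Pool.Agent.Lib.MP_1a91b9_nuX.DB Pool.Agent.Lib.MP_1a91b9_nuX.GL
  Pool.Agent.Lib.MP_1a91b9_nuX.PG Pool.Agent.Lib.MP_1a91b9_nuX.PH
open Pool.Agent.Lib.MP_1a91b9_nuX

universe u

/-- the curve `y² = x³ - δ² x` over `F` -/
def Wc (F : Type*) [Field F] (δ : F) : WeierstrassCurve F := ⟨0, 0, 0, -δ ^ 2, 0⟩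

theorem Wc_map {F F' : Type*} [Field F] [Field F'] [Algebra F F'] (δ : F) :
    (Wc F δ).map (algebraMap F F') = Wc F' (algebraMap F F' δ) := by
  refine WeierstrassCurve.ext ?_ ?_ ?_ ?_ ?_
  · exact map_zero _
  · exact map_zero _
  · exact map_zero _
  · show algebraMap F F' (-δ ^ 2) = -(algebraMap F F' δ) ^ 2
    rw [map_neg, map_pow]
  · exact map_zero _

theorem Wc_disc (F : Type*) [Field F] (δ : F) : (Wc F δ).Δ = 64 * δ ^ 6 := by
  simp only [WeierstrassCurve.Δ, WeierstrassCurve.b₂, WeierstrassCurve.b₄, WeierstrassCurve.b₆,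
    WeierstrassCurve.b₈, Wc]
  ring

/-- the twist by `s ^ 2` -/
theorem Ds_Wc {F : Type*} [Field F] (s : F) (hs : s ≠ 0) (δ : F) :
    Ds s hs • Wc F δ = Wc F (s ^ 2 * δ) := by
  rw [Wc, Ds_smul, Wc]
  refine WeierstrassCurve.ext rfl rfl rfl ?_ ?_
  · show s ^ 4 * -δ ^ 2 = -(s ^ 2 * δ) ^ 2
    ring
  · show s ^ 6 * 0 = (0 : F)
    ring

theorem EF_cd4 : EF Kb = Wc Kb 1 := by
  refine WeierstrassCurve.ext ?_ ?_ ?_ ?_ ?_
  · exact map_zero _
  · exact map_zero _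
  · exact map_zero _
  · show algebraMap K Kb (((-1 : ℤ) : K)) = -1 ^ 2
    rw [map_intCast]
    norm_num
  · show algebraMap K Kb (((0 : ℤ) : K)) = 0
    rw [map_intCast]
    norm_num

section
variable {F : Type u} [Field F] [NumberField F]

omit [NumberField F] in
/-- the isomorphism over the algebraic closure -/
theorem Ds_EF [Algebra F Kb] {s : Kb} (hs0 : s ≠ 0) {δ : F} (hs : s ^ 2 = algebraMap F Kb δ) :
    Ds s hs0 • EF Kb = (Wc F δ).map (algebraMap F Kb) := by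
  rw [EF_cd4, Ds_Wc, Wc_map, hs, mul_one]

omit [NumberField F] in
theorem exists_sqrt [Algebra F Kb] {δ : F} (hδ : δ ≠ 0) :
    ∃ s : Kb, s ≠ 0 ∧ s ^ 2 = algebraMap F Kb δ := by
  obtain ⟨s, hs⟩ := IsAlgClosed.exists_pow_nat_eq (algebraMap F Kb δ) (n := 2) (by norm_num)
  refine ⟨s, ?_, hs⟩
  rintro rfl
  rw [zero_pow two_ne_zero, eq_comm, map_eq_zero] at hs
  exact hδ hs

theorem fm_Wc [Algebra K F] {δ : F} (hδ : δ ≠ 0) : Fm (Wc F δ) := by
  obtain ⟨ι⟩ := PH.exists_emb F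
  let iA : Algebra F Kb := (ι : F →+* Kb).toAlgebra
  obtain ⟨s, hs0, hs⟩ := exists_sqrt (F := F) hδ
  exact ⟨ι, Ds s hs0, Ds_EF hs0 hs⟩

/-- the value of `z` at `v` is a square -/
def Ev (v : HeightOneSpectrum (𝓞 F)) (z : F) : Prop :=
  ∃ y : F, y ≠ 0 ∧ v.valuation F z = v.valuation F y ^ 2

theorem ev_iff (v : HeightOneSpectrum (𝓞 F)) {z : F} (hz : z ≠ 0) :
    Ev v z ↔ Even (WithZero.log (v.valuation F z)) := by
  have hv : v.valuation F z ≠ 0 := by
    rw [Ne, map_eq_zero]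
    exact hz
  constructor
  · rintro ⟨y, hy0, hy⟩
    rw [hy, WithZero.log_pow, nsmul_eq_mul]
    exact even_two_mul _
  · rintro ⟨m, hm⟩
    obtain ⟨π, hπ⟩ := v.valuation_exists_uniformizer F
    have hπ0 : π ≠ 0 := by
      rintro rfl
      rw [map_zero] at hπ
      exact WithZero.coe_ne_zero hπ.symm
    refine ⟨π ^ (-m), zpow_ne_zero _ hπ0, ?_⟩
    have h1 : v.valuation F π ^ (-m) = WithZero.exp m := by
      rw [hπ, ← WithZero.exp_zsmul]
      simp
    rw [map_zpow₀, h1, sq, ← WithZero.exp_add, ← hm, WithZero.exp_log hv]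

theorem log_mul' (v : HeightOneSpectrum (𝓞 F)) {z z' : F} (hz : z ≠ 0) (hz' : z' ≠ 0) :
    WithZero.log (v.valuation F (z * z')) =
      WithZero.log (v.valuation F z) + WithZero.log (v.valuation F z') := by
  rw [map_mul, WithZero.log_mul]
  · rw [Ne, map_eq_zero]
    exact hz
  · rw [Ne, map_eq_zero]
    exact hz'

/-- three cases -/
theorem ev_third (v : HeightOneSpectrum (𝓞 F)) {α δ : F} (hα : α ≠ 0) (hδ : δ ≠ 0)
    (h : Ev v δ ↔ Ev v (α * δ)) : Ev v α := by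
  rw [ev_iff v hδ, ev_iff v (mul_ne_zero hα hδ), log_mul' v hα hδ, Int.even_add] at h
  rw [ev_iff v hα]
  tauto

theorem val_two {v : HeightOneSpectrum (𝓞 F)} (h2 : (2 : 𝓞 F) ∉ v.asIdeal) :
    v.valuation F (2 : F) = 1 := by
  have h10 : ¬ v.valuation F (((2 : 𝓞 F) : 𝓞 F) : F) < 1 := by
    rw [GM.val_lt_mem]
    exact h2
  have h11 := GM.val_le v (2 : 𝓞 F)
  have h12 : (((2 : 𝓞 F) : 𝓞 F) : F) = 2 := map_ofNat (algebraMap (𝓞 F) F) 2
  rw [h12] at h10 h11
  exact le_antisymm h11 (not_lt.1 h10)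

theorem val_disc {v : HeightOneSpectrum (𝓞 F)} (h2 : (2 : 𝓞 F) ∉ v.asIdeal) (δ : F) :
    v.valuation F (Wc F δ).Δ = v.valuation F δ ^ 6 := by
  have e : (64 : F) = 2 ^ 6 := by norm_num
  rw [Wc_disc, e, map_mul, map_pow, map_pow, val_two h2, one_pow, one_mul]

/-- good reduction at the odd places where the value is a square -/
theorem gd_of_ev {v : HeightOneSpectrum (𝓞 F)} (h2 : (2 : 𝓞 F) ∉ v.asIdeal) {δ : F}
    (h : Ev v δ) : Gd (Wc F δ) v := by
  obtain ⟨y, hy0, hy⟩ := h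
  have hvy : v.valuation F y ≠ 0 := by
    rw [Ne, map_eq_zero]
    exact hy0
  have hyi : y⁻¹ ≠ 0 := inv_ne_zero hy0
  refine ⟨Ds y⁻¹ hyi, ?_⟩
  rw [Ds_Wc]
  have hval : v.valuation F (y⁻¹ ^ 2 * δ) = 1 := by
    rw [map_mul, map_pow, map_inv₀, hy, inv_pow, inv_mul_cancel₀ (pow_ne_zero 2 hvy)]
  refine ⟨⟨?_, ?_, ?_, ?_, ?_⟩, ?_⟩
  · show v.valuation F 0 ≤ 1
    rw [map_zero]
    exact zero_le_one
  · show v.valuation F 0 ≤ 1
    rw [map_zero]
    exact zero_le_one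
  · show v.valuation F 0 ≤ 1
    rw [map_zero]
    exact zero_le_one
  · show v.valuation F (-(y⁻¹ ^ 2 * δ) ^ 2) ≤ 1
    rw [Valuation.map_neg, map_pow, hval, one_pow]
  · show v.valuation F 0 ≤ 1
    rw [map_zero]
    exact zero_le_one
  · rw [val_disc h2, hval, one_pow]

/-- the value is a square at the odd places of good reduction -/
theorem ev_of_gd {v : HeightOneSpectrum (𝓞 F)} (h2 : (2 : 𝓞 F) ∉ v.asIdeal) {δ : F}
    (h : Gd (Wc F δ) v) : Ev v δ := by
  obtain ⟨C, hC⟩ := h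
  have h1 := hC.disc
  rw [variableChange_Δ, map_mul, val_disc h2] at h1
  have hu : ((C.u : Fˣ) : F) ≠ 0 := C.u.ne_zero
  have hvu : v.valuation F ((C.u : Fˣ) : F) ≠ 0 := by
    rw [Ne, map_eq_zero]
    exact hu
  refine ⟨C.u, hu, ?_⟩
  rw [map_pow, Units.val_inv_eq_inv_val, map_inv₀, inv_pow,
    inv_mul_eq_one₀ (pow_ne_zero 12 hvu)] at h1
  have h3 : v.valuation F δ ^ 6 = (v.valuation F ((C.u : Fˣ) : F) ^ 2) ^ 6 := by
    rw [← h1, ← pow_mul]
  exact (pow_left_inj₀ zero_le zero_le (by norm_num : (6 : ℕ) ≠ 0)).1 h3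

end

section
variable {F F' : Type u} [Field F] [NumberField F] [Field F'] [NumberField F'] [Algebra F F']
  [Algebra K F] [Algebra K F'] [IsScalarTower K F F'] {x : F'}

omit [NumberField F] [NumberField F'] [Algebra K F] [Algebra K F'] [IsScalarTower K F F'] in
/-- the twist becomes isomorphic to the curve -/
theorem Ds_up {α δ : F} (hx0 : x ≠ 0) (hx : x ^ 2 = algebraMap F F' α) :
    Ds x hx0 • Wc F' (algebraMap F F' δ) = (Wc F (α * δ)).map (algebraMap F F') := by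
  rw [Ds_Wc, Wc_map, hx, map_mul]

/-- the value of the character of the twist at an inert place -/
theorem hv_inert (hE : EllK)
    (hgen : ∀ z : F', ∃ b c : F, z = algebraMap F F' b + algebraMap F F' c * x) {α δ : F}
    (hα : α ≠ 0) (hδ : δ ≠ 0) (hx : x ^ 2 = algebraMap F F' α) {v : HeightOneSpectrum (𝓞 F)}
    (hv : ∀ w : HeightOneSpectrum (𝓞 F'), w.under (𝓞 F) = v → w.asIdeal.inertiaDeg (𝓞 F) = 2)
    (g1 : Gd (Wc F δ) v) (g2 : Gd (Wc F (α * δ)) v) :
    Hv (Wc F (α * δ)) v = -Hv (Wc F δ) v := by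
  classical
  obtain ⟨ι'⟩ := PH.exists_emb F'
  let iA' : Algebra F' Kb := (ι' : F' →+* Kb).toAlgebra
  have iT' : IsScalarTower K F' Kb := IsScalarTower.of_algebraMap_eq fun x => (ι'.commutes x).symm
  let iA : Algebra F Kb := ((ι'.comp (IsScalarTower.toAlgHom K F F')) : F →+* Kb).toAlgebra
  have iT2 : IsScalarTower F F' Kb := IsScalarTower.of_algebraMap_eq fun x => rfl
  have iT : IsScalarTower K F Kb := IsScalarTower.of_algebraMap_eq fun x =>
    ((ι'.comp (IsScalarTower.toAlgHom K F F')).commutes x).symm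
  obtain ⟨s, hs0, hs⟩ := exists_sqrt (F := F) hδ
  obtain ⟨r, hr⟩ : ∃ r, r = algebraMap F' Kb x := ⟨_, rfl⟩
  have hr2 : r ^ 2 = algebraMap F Kb α := by
    rw [hr, ← map_pow, hx, ← IsScalarTower.algebraMap_apply F F' Kb]
  have hr0 : r ≠ 0 := by
    rintro rfl
    rw [zero_pow two_ne_zero, eq_comm, map_eq_zero] at hr2
    exact hα hr2
  have hD1 : Ds s hs0 • EF Kb = (Wc F δ).map (algebraMap F Kb) := Ds_EF hs0 hs
  have hD2 : Ds (r * s) (mul_ne_zero hr0 hs0) • EF Kb =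
      (Wc F (α * δ)).map (algebraMap F Kb) := Ds_EF _ (by rw [mul_pow, hr2, hs, map_mul])
  have h1 := hv_frv hE (fm_Wc hδ) g1 hD1
  refine hv_eq hE (fm_Wc (mul_ne_zero hα hδ)) g2 hD2 ?_
  refine frv_twist hs0 hr0 hr2 (fun V hV σ hσ => ?_) h1
  rw [hr]
  exact frob_neg hgen hx hv hV σ hσ

/-- **The local factors in a quadratic extension.** -/
theorem locStep (hE : EllK) (hL : Module.finrank F F' = 2)
    (hgen : ∀ z : F', ∃ b c : F, z = algebraMap F F' b + algebraMap F F' c * x) {α δ : F}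
    (hα : α ≠ 0) (hδ : δ ≠ 0) (hx : x ^ 2 = algebraMap F F' α)
    (b1 : ∀ v : HeightOneSpectrum (𝓞 F), (2 : 𝓞 F) ∈ v.asIdeal → ¬ Gd (Wc F δ) v)
    (b3 : ∀ w : HeightOneSpectrum (𝓞 F'), (2 : 𝓞 F') ∈ w.asIdeal →
      ¬ Gd (Wc F' (algebraMap F F' δ)) w) :
    LocStep (psP (Wc F δ)) (psP (Wc F (α * δ))) (psP (Wc F' (algebraMap F F' δ))) := by
  intro v s hs
  have hx0 : x ≠ 0 := by
    rintro rfl
    rw [zero_pow two_ne_zero, eq_comm, map_eq_zero] at hx
    exact hα hx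
  have hαδ : α * δ ≠ 0 := mul_ne_zero hα hδ
  have hmap : (Wc F δ).map (algebraMap F F') = Wc F' (algebraMap F F' δ) := Wc_map δ
  have u1 : ∀ w ∈ s, Gd (Wc F δ) v → Hv (Wc F' (algebraMap F F' δ)) w =
      Hv (Wc F δ) v ^ w.asIdeal.inertiaDeg (𝓞 F) := by
    intro w hw hg
    have h1 := (hs w).1 hw
    rw [← h1] at hg
    have h2 := hv_up hE (fm_Wc hδ) w hg
    rw [hmap, h1] at h2
    exact h2
  have u2 : ∀ w ∈ s, Gd (Wc F (α * δ)) v → Hv (Wc F' (algebraMap F F' δ)) w =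
      Hv (Wc F (α * δ)) v ^ w.asIdeal.inertiaDeg (𝓞 F) := by
    intro w hw hg
    have h1 := (hs w).1 hw
    rw [← h1] at hg
    have h2 := hv_up hE (fm_Wc hαδ) w hg
    rw [← hv_iso (Ds x hx0) (Ds_up hx0 hx) w, h1] at h2
    exact h2
  have d1 : ∀ w ∈ s, w.asIdeal.ramificationIdx (𝓞 F) = 1 → Gd (Wc F' (algebraMap F F' δ)) w →
      Gd (Wc F δ) v := by
    intro w hw he hg
    rw [← hmap] at hg
    have h1 := desc_unr hL he hg
    rw [(hs w).1 hw] at h1
    exact h1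
  have d2 : ∀ w ∈ s, w.asIdeal.ramificationIdx (𝓞 F) = 1 → Gd (Wc F' (algebraMap F F' δ)) w →
      Gd (Wc F (α * δ)) v := by
    intro w hw he hg
    have h0 := (gd_chg (Ds x hx0) (Ds_up hx0 hx) w).1 hg
    have h1 := desc_unr hL he h0
    rw [(hs w).1 hw] at h1
    exact h1
  have t2 : ∀ w ∈ s, ((2 : 𝓞 F') ∈ w.asIdeal ↔ (2 : 𝓞 F) ∈ v.asIdeal) := by
    intro w hw
    rw [← (hs w).1 hw]
    show _ ↔ algebraMap (𝓞 F) (𝓞 F') 2 ∈ w.asIdeal
    rw [map_ofNat]
  have r1 : ∀ w ∈ s, (2 : 𝓞 F) ∉ v.asIdeal → (Gd (Wc F δ) v ↔ Gd (Wc F (α * δ)) v) →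
      w.asIdeal.ramificationIdx (𝓞 F) = 1 := by
    intro w hw h2 hiff
    have h3 : Ev v δ ↔ Ev v (α * δ) :=
      ⟨fun h => ev_of_gd h2 (hiff.1 (gd_of_ev h2 h)), fun h => ev_of_gd h2 (hiff.2 (gd_of_ev h2 h))⟩
    obtain ⟨y, hy0, hy⟩ := ev_third v hα hδ h3
    refine ram_one hgen hL hx (fun h => h2 ((t2 w hw).1 h)) hy0 ?_
    rw [(hs w).1 hw]
    exact hy
  simp only [psP_prime]
  by_cases g1 : Gd (Wc F δ) v
  · have hv2 : (2 : 𝓞 F) ∉ v.asIdeal := fun h => b1 v h g1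
    by_cases g2 : Gd (Wc F (α * δ)) v
    · rcases quad_fin hL v s hs with ⟨hc, hfe⟩ | ⟨w, hw, hf, he⟩ | ⟨w, hw, hf, he⟩
      · have h1 : ∀ w ∈ s, 1 - Polynomial.C (Hv (Wc F' (algebraMap F F' δ)) w) *
            Polynomial.X ^ w.asIdeal.inertiaDeg (𝓞 F) =
            1 - Polynomial.C (Hv (Wc F δ) v) * Polynomial.X := by
          intro w hw
          rw [u1 w hw g1, (hfe w hw).1, pow_one, pow_one]
        obtain ⟨w, hw⟩ := Finset.card_pos.1 (by rw [hc]; norm_num : 0 < s.card)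
        have h2 : Hv (Wc F (α * δ)) v = Hv (Wc F δ) v := by
          have h3 := u1 w hw g1
          rw [u2 w hw g2, (hfe w hw).1, pow_one, pow_one] at h3
          exact h3
        rw [Finset.prod_congr rfl h1, Finset.prod_const, hc, h2, sq]
      · have hws : w ∈ s := by
          rw [hw]
          exact Finset.mem_singleton_self w
        have h2 : Hv (Wc F (α * δ)) v = -Hv (Wc F δ) v := by
          refine hv_inert hE hgen hα hδ hx (fun w' hw' => ?_) g1 g2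
          have h3 := (hs w').2 hw'
          rw [hw, Finset.mem_singleton] at h3
          rw [h3, hf]
        rw [hw, Finset.prod_singleton, u1 w hws g1, hf, h2, map_neg, map_pow]
        ring
      · have hws : w ∈ s := by
          rw [hw]
          exact Finset.mem_singleton_self w
        have h3 := r1 w hws hv2 ⟨fun _ => g2, fun _ => g1⟩
        omega
    · have h0 : ∀ w ∈ s, w.asIdeal.ramificationIdx (𝓞 F) ≠ 1 := by
        intro w hw he
        refine g2 (d2 w hw he ?_)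
        have h1 := gd_up (F' := F') (W := Wc F δ) (w := w) (by rw [(hs w).1 hw]; exact g1)
        rw [hmap] at h1
        exact h1
      rcases quad_fin hL v s hs with ⟨hc, hfe⟩ | ⟨w, hw, hf, he⟩ | ⟨w, hw, hf, he⟩
      · obtain ⟨w, hw⟩ := Finset.card_pos.1 (by rw [hc]; norm_num : 0 < s.card)
        exact absurd (hfe w hw).2 (h0 w hw)
      · exact absurd he (h0 w (by rw [hw]; exact Finset.mem_singleton_self w))
      · rw [hw, Finset.prod_singleton, u1 w (by rw [hw]; exact Finset.mem_singleton_self w) g1, hf,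
          hv_bad g2, map_zero, zero_mul, sub_zero, mul_one, pow_one, pow_one]
  · by_cases g2 : Gd (Wc F (α * δ)) v
    · have h0 : ∀ w ∈ s, w.asIdeal.ramificationIdx (𝓞 F) ≠ 1 := by
        intro w hw he
        refine g1 (d1 w hw he ?_)
        have h1 := gd_up (F' := F') (W := Wc F (α * δ)) (w := w) (by rw [(hs w).1 hw]; exact g2)
        exact (gd_chg (Ds x hx0) (Ds_up hx0 hx) w).2 h1
      rcases quad_fin hL v s hs with ⟨hc, hfe⟩ | ⟨w, hw, hf, he⟩ | ⟨w, hw, hf, he⟩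
      · obtain ⟨w, hw⟩ := Finset.card_pos.1 (by rw [hc]; norm_num : 0 < s.card)
        exact absurd (hfe w hw).2 (h0 w hw)
      · exact absurd he (h0 w (by rw [hw]; exact Finset.mem_singleton_self w))
      · rw [hw, Finset.prod_singleton, u2 w (by rw [hw]; exact Finset.mem_singleton_self w) g2, hf,
          hv_bad g1, map_zero, zero_mul, sub_zero, one_mul, pow_one, pow_one]
    · rw [hv_bad g1, hv_bad g2]
      have h0 : ∀ w ∈ s, 1 - Polynomial.C (Hv (Wc F' (algebraMap F F' δ)) w) *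
            Polynomial.X ^ w.asIdeal.inertiaDeg (𝓞 F) = 1 := by
        intro w hw
        have h1 : ¬ Gd (Wc F' (algebraMap F F' δ)) w := by
          intro hg
          by_cases h2 : (2 : 𝓞 F) ∈ v.asIdeal
          · exact b3 w ((t2 w hw).2 h2) hg
          · exact g1 (d1 w hw (r1 w hw h2 ⟨fun h => absurd h g1, fun h => absurd h g2⟩) hg)
        rw [hv_bad h1, map_zero, zero_mul, sub_zero]
      rw [Finset.prod_congr rfl h0]
      simp

end

end Pool.Agent.Lib.MP_1a91b9_ntM
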