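import Pool.Agent.Lib.MP_1a91b9_nuX.LG.Main
import Pool.Agent.Lib.MP_1a91b9_nuX.PH.Main
import Pool.Agent.Lib.MP_1a91b9_nuX.PG.CntW

/-!
# The local data of a form of the curve

`PDat F W ps`: `ps` is completely multiplicative, `|ps I| ≤ N(I)^(1/2)`, and the local factors of `W` are
`(1 - ps(w) X) (1 - conj ps(w) X)`. For every form `W` of the curve (`Fm W`) the function `psP W` has this property. (That
`psP W` is a Hecke character is not used.)
-/

set_option autoImplicit false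

namespace Pool.Agent.Lib.MP_1a91b9_ntM

open NumberField IsDedekindDomain Polynomial WeierstrassCurve
  Pool.Agent.Lib.MP_1a91b9_nt Pool.Agent.Lib.MP_1a91b9_nuT Pool.Agent.Lib.MP_1a91b9_nuT.S7
open Pool.Agent.Lib.MP_1a91b9_nuT.S4 (Lf norm_K)
open Pool.Agent.Lib.MP_1a91b9_nuX.DB Pool.Agent.Lib.MP_1a91b9_nuX.GL
  Pool.Agent.Lib.MP_1a91b9_nuX.PG Pool.Agent.Lib.MP_1a91b9_nuX.PH
open Pool.Agent.Lib.MP_1a91b9_nuX.LG (Lf_conj_of)
open Pool.Agent.Lib.MP_1a91b9_nuX.PA (pC bC_eq)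

universe u

variable [CD]

/-- The local data of the curve `W` over the field `F` which contains `K`. -/
structure PDat (F : Type*) [Field F] [NumberField F] [Algebra K F] (W : WeierstrassCurve F)
    (ps : Ideal (𝓞 F) → 𝓞 K) : Prop where
  one : ps 1 = 1
  mul : ∀ I J : Ideal (𝓞 F), ps (I * J) = ps I * ps J
  nrm : ∀ I : Ideal (𝓞 F), ‖pC ps I‖ ≤ (Ideal.absNorm I : ℝ) ^ (1 / 2 : ℝ)
  loc : ∀ w : HeightOneSpectrum (𝓞 F), (locPoly W w).map (Int.castRingHom (𝓞 K)) =
    (1 - Polynomial.C (ps w.asIdeal) * Polynomial.X) *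
      (1 - Polynomial.C (cj (ps w.asIdeal)) * Polynomial.X)

section
variable {F : Type u} [Field F] [NumberField F] [Algebra K F] {W : WeierstrassCurve F}
  {ps : Ideal (𝓞 F) → 𝓞 K} (h : PDat F W ps)
include h

theorem PDat.pC_one : pC ps 1 = 1 := by
  rw [pC, h.one]
  simp

theorem PDat.pC_mul (I J : Ideal (𝓞 F)) : pC ps (I * J) = pC ps I * pC ps J := by
  rw [pC, h.mul]
  simp [pC]

theorem PDat.bC_one : bC ps 1 = 1 := by
  rw [bC_eq, h.pC_one, map_one]

theorem PDat.bC_mul (I J : Ideal (𝓞 F)) : bC ps (I * J) = bC ps I * bC ps J := by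
  rw [bC_eq, bC_eq, bC_eq, h.pC_mul, map_mul]

theorem PDat.norm_bC (I : Ideal (𝓞 F)) : ‖bC ps I‖ ≤ (Ideal.absNorm I : ℝ) ^ (1 / 2 : ℝ) := by
  rw [bC_eq, RCLike.norm_conj]
  exact h.nrm I

/-- the Euler factor -/
theorem PDat.loc_C (w : HeightOneSpectrum (𝓞 F)) (x : ℂ) :
    aeval x (locPoly W w) = (1 - pC ps w.asIdeal * x) * (1 - bC ps w.asIdeal * x) := by
  have h1 := h.loc w
  obtain ⟨τ, hτ⟩ : ∃ τ : 𝓞 K →+* ℂ, τ = embK.toRingHom.comp (algebraMap (𝓞 K) K) := ⟨_, rfl⟩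
  have h2 := congrArg (eval₂ τ x) h1
  rw [eval₂_map] at h2
  have h3 : τ.comp (Int.castRingHom (𝓞 K)) = algebraMap ℤ ℂ := RingHom.ext_int _ _
  rw [h3] at h2
  rw [aeval_def, h2]
  simp only [eval₂_mul, eval₂_sub, eval₂_one, eval₂_C, eval₂_X]
  have e1 : τ (ps w.asIdeal) = pC ps w.asIdeal := by
    rw [hτ]
    rfl
  have e2 : τ (cj (ps w.asIdeal)) = bC ps w.asIdeal := by
    rw [hτ]
    change embK ((cj (ps w.asIdeal) : 𝓞 K) : K) = _
    rw [emb_cj]
    rfl
  rw [e1, e2]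

/-- the range `2 < Re s` -/
theorem PDat.ser2 (s : ℂ) (hs : 2 < s.re) : W.LSeries s = Lf (pC ps) s * Lf (bC ps) s := by
  have hp := (S4.hasProd_Lf (pC ps) h.pC_one h.pC_mul (1 / 2) (by norm_num)
    h.nrm s (by linarith)).2
  have hq := (S4.hasProd_Lf (bC ps) h.bC_one h.bC_mul (1 / 2) (by norm_num)
    h.norm_bC s (by linarith)).2
  have hpq := hp.mul hq
  have he := hasProd_fac W hs
  refine he.unique ?_
  have e : (fun w : HeightOneSpectrum (𝓞 F) => fac W w s) = fun w =>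
      (1 - pC ps w.asIdeal * (Ideal.absNorm w.asIdeal : ℂ) ^ (-s))⁻¹ *
      (1 - bC ps w.asIdeal * (Ideal.absNorm w.asIdeal : ℂ) ^ (-s))⁻¹ := by
    funext w
    rw [fac, nrm_eq, h.loc_C w, mul_inv]
  rw [e]
  exact hpq

/-- the L-series of `W` in terms of the function `ps` -/
theorem PDat.ser (s : ℂ) (hs : 3 / 2 < s.re) : W.LSeries s = Lf (pC ps) s * Lf (bC ps) s := by
  have hp := hasSum_coefI_of_le (pC ps) h.pC_one h.pC_mul h.nrm
  have hq := hasSum_coefI_of_le (bC ps) h.bC_one h.bC_mul h.norm_bC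
  have h1 := half_plane W (LSeries.convolution (coefI (pC ps)) (coefI (bC ps)))
    (fun s hs => ((hp s hs).convolution (hq s hs)).LSeriesSummable)
    (fun s hs => by
      have hs' : 3 / 2 < s.re := by linarith
      rw [h.ser2 s hs, ((hp s hs').convolution (hq s hs')).LSeries_eq]) s hs
  rw [h1.2, ((hp s hs).convolution (hq s hs)).LSeries_eq]

end

/-- the norm of an element of `𝓞 K` -/
theorem norm_emb_sq (a : 𝓞 K) : ‖embK ((a : 𝓞 K) : K)‖ ^ 2 =
    (Ideal.absNorm (Ideal.span {a}) : ℝ) := by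
  rw [← norm_K, Ideal.absNorm_span_singleton]
  have h : ((Algebra.norm ℤ a : ℤ) : ℚ) = Algebra.norm ℚ ((a : 𝓞 K) : K) :=
    Algebra.coe_norm_int _
  rw [← h, Nat.cast_natAbs]
  push_cast
  rfl

section
variable {F : Type u} [Field F] [NumberField F] [Algebra K F] {W : WeierstrassCurve F}

theorem psP_prime (W : WeierstrassCurve F) (w : HeightOneSpectrum (𝓞 F)) :
    psP W w.asIdeal = Hv W w := psI_prime _ w

/-- **The data of a form of the curve.** -/
theorem pdatP (hE : EllK) (hW : Fm W) : PDat F W (psP W) := by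
  classical
  refine ⟨psI_one _, psI_mul _, fun I => ?_, fun w => ?_⟩
  · by_cases h0 : I = ⊥
    · have h1 : psP W I = 0 := by
        rw [h0]
        exact psI_bot _
      rw [pC, h1]
      simp only [map_zero, norm_zero]
      positivity
    · refine ideal_ind (p := fun I => ‖pC (psP W) I‖ ≤ (Ideal.absNorm I : ℝ) ^ (1 / 2 : ℝ))
        ?_ ?_ I h0
      · show ‖pC (psP W) 1‖ ≤ (Ideal.absNorm (1 : Ideal (𝓞 F)) : ℝ) ^ (1 / 2 : ℝ)
        have h1 : psP W 1 = 1 := psI_one _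
        rw [pC, h1, map_one]
        simp
      · intro Q J _ ih
        show ‖pC (psP W) (Q.asIdeal * J)‖ ≤ (Ideal.absNorm (Q.asIdeal * J) : ℝ) ^ (1 / 2 : ℝ)
        have h1 : psP W (Q.asIdeal * J) = psP W Q.asIdeal * psP W J := psI_mul _ _ _
        have h2 : pC (psP W) (Q.asIdeal * J) = pC (psP W) Q.asIdeal * pC (psP W) J := by
          rw [pC, h1]
          simp [pC]
        rw [h2, norm_mul, map_mul, Nat.cast_mul, Real.mul_rpow (Nat.cast_nonneg _)
          (Nat.cast_nonneg _)]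
        refine mul_le_mul ?_ ih (norm_nonneg _) (by positivity)
        rw [pC, psP_prime]
        by_cases hg : Gd W Q
        · have h3 := hv_span hE hW hg
          have h4 := norm_emb_sq (Hv W Q)
          rw [h3, Ideal.absNorm_relNorm (𝓞 K) (𝓞 F)] at h4
          rw [← h4, ← Real.sqrt_eq_rpow, Real.sqrt_sq (norm_nonneg _)]
        · rw [hv_bad hg]
          simp only [map_zero, norm_zero]
          positivity
  · rw [psP_prime]
    obtain ⟨ι, D, hD⟩ := id hW
    let iA : Algebra F Kb := (ι : F →+* Kb).toAlgebra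
    have iT : IsScalarTower K F Kb := IsScalarTower.of_algebraMap_eq fun x => (ι.commutes x).symm
    have hD' : D • EF Kb = W.map (algebraMap F Kb) := hD
    by_cases hg : Gd W w
    · exact loc_goodW hD' (hv_span hE hW hg) (hv_frv hE hW hg hD') hg
    · rw [hv_bad hg, loc_badW hD' hg]
      simp

end

end Pool.Agent.Lib.MP_1a91b9_ntM
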