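import Pool.Agent.Lib.MP_1a91b9_ntM.Tw
import Pool.Agent.Lib.MP_1a91b9_nuX.GL.DescU
import Pool.Agent.Lib.MP_1a91b9_nuX.GL.AbsU

/-!
# Places in a quadratic extension
-/

set_option autoImplicit false

namespace Pool.Agent.Lib.MP_1a91b9_ntM

open NumberField IsDedekindDomain
open Pool.Agent.Lib.MP_1a91b9_nuX

universe u

section
variable {F F' : Type u} [Field F] [NumberField F] [Field F'] [NumberField F'] [Algebra F F']

/-- the three kinds of places -/
theorem quad_fin (hL : Module.finrank F F' = 2) (v : HeightOneSpectrum (𝓞 F))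
    (s : Finset (HeightOneSpectrum (𝓞 F')))
    (hs : ∀ w : HeightOneSpectrum (𝓞 F'), w ∈ s ↔ w.under (𝓞 F) = v) :
    (s.card = 2 ∧ ∀ w ∈ s, w.asIdeal.inertiaDeg (𝓞 F) = 1 ∧
      w.asIdeal.ramificationIdx (𝓞 F) = 1) ∨
    (∃ w, s = {w} ∧ w.asIdeal.inertiaDeg (𝓞 F) = 2 ∧ w.asIdeal.ramificationIdx (𝓞 F) = 1) ∨
    (∃ w, s = {w} ∧ w.asIdeal.inertiaDeg (𝓞 F) = 1 ∧
      w.asIdeal.ramificationIdx (𝓞 F) = 2) := by
  have hquad : Algebra.IsQuadraticExtension F F' := ⟨hL⟩
  have hgal : IsGalois F F' := inferInstance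
  have hvp : v.asIdeal.IsPrime := v.isPrime
  have hvm : v.asIdeal.IsMaximal := v.isMaximal
  have hfund := Ideal.ncard_primesOver_mul_ramificationIdxIn_mul_inertiaDegIn v.asIdeal (𝓞 F')
    Gal(F'/F)
  have hcard : Nat.card Gal(F'/F) = 2 := by
    rw [IsGalois.card_aut_eq_finrank, hL]
  rw [hcard] at hfund
  have hlies : ∀ w ∈ s, w.asIdeal.LiesOver v.asIdeal := fun w hw =>
    ⟨(congrArg HeightOneSpectrum.asIdeal ((hs w).1 hw)).symm⟩
  have hdeg : ∀ w ∈ s, w.asIdeal.inertiaDeg (𝓞 F) = Ideal.inertiaDegIn v.asIdeal (𝓞 F') := by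
    intro w hw
    have i1 : w.asIdeal.IsPrime := w.isPrime
    have i2 := hlies w hw
    exact (Ideal.inertiaDegIn_eq_inertiaDeg v.asIdeal w.asIdeal Gal(F'/F)).symm
  have hram : ∀ w ∈ s, w.asIdeal.ramificationIdx (𝓞 F) =
      Ideal.ramificationIdxIn v.asIdeal (𝓞 F') := by
    intro w hw
    have i1 : w.asIdeal.IsPrime := w.isPrime
    have i2 := hlies w hw
    exact (Ideal.ramificationIdxIn_eq_ramificationIdx v.asIdeal w.asIdeal Gal(F'/F)).symm
  have hc : s.card = (v.asIdeal.primesOver (𝓞 F')).ncard := by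
    have h1 : (v.asIdeal.primesOver (𝓞 F')) =
        (fun w : HeightOneSpectrum (𝓞 F') => w.asIdeal) '' (s : Set (HeightOneSpectrum (𝓞 F'))) := by
      ext P
      constructor
      · rintro ⟨hP1, hP2⟩
        have hne : P ≠ ⊥ := by
          rintro rfl
          have h2 := hP2.over
          rw [Ideal.under_bot] at h2
          exact v.ne_bot h2
        refine ⟨⟨P, hP1, hne⟩, ?_, rfl⟩
        rw [Finset.mem_coe, hs]
        exact HeightOneSpectrum.ext hP2.over.symm
      · rintro ⟨w, hw, rfl⟩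
        exact ⟨w.isPrime, hlies w hw⟩
    rw [h1, Set.ncard_image_of_injective _ (fun w w' h => HeightOneSpectrum.ext h),
      Set.ncard_coe_finset]
  rw [← hc] at hfund
  obtain ⟨e, he⟩ : ∃ e, e = Ideal.ramificationIdxIn v.asIdeal (𝓞 F') := ⟨_, rfl⟩
  obtain ⟨f, hf⟩ : ∃ f, f = Ideal.inertiaDegIn v.asIdeal (𝓞 F') := ⟨_, rfl⟩
  rw [← he, ← hf] at hfund
  rw [← he] at hram
  rw [← hf] at hdeg
  have hdvd : s.card ∣ 2 := ⟨_, hfund.symm⟩
  have hdvdf : f ∣ 2 := ⟨s.card * e, by rw [← hfund]; ring⟩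
  rcases (Nat.dvd_prime Nat.prime_two).mp hdvd with h1 | h1
  · obtain ⟨w, hw⟩ := Finset.card_eq_one.1 h1
    have hws : w ∈ s := by
      rw [hw]
      exact Finset.mem_singleton_self w
    rw [h1, one_mul] at hfund
    rcases (Nat.dvd_prime Nat.prime_two).mp hdvdf with h2 | h2
    · refine Or.inr (Or.inr ⟨w, hw, by rw [hdeg w hws, h2], ?_⟩)
      rw [h2, mul_one] at hfund
      rw [hram w hws, hfund]
    · refine Or.inr (Or.inl ⟨w, hw, by rw [hdeg w hws, h2], ?_⟩)
      rw [h2] at hfund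
      rw [hram w hws]
      omega
  · refine Or.inl ⟨h1, fun w hw => ?_⟩
    rw [h1] at hfund
    have h3 : e * f = 1 := by omega
    exact ⟨by rw [hdeg w hw, Nat.eq_one_of_mul_eq_one_left h3],
      by rw [hram w hw, Nat.eq_one_of_mul_eq_one_right h3]⟩

variable {x : F'} (hgen : ∀ z : F', ∃ b c : F, z = algebraMap F F' b + algebraMap F F' c * x)
include hgen

/-- `F(√α)/F` is unramified at a place which is not above `2` where the value of `α` is a square -/
theorem ram_one (hL : Module.finrank F F' = 2) {α : F} (hx : x ^ 2 = algebraMap F F' α)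
    {w : HeightOneSpectrum (𝓞 F')} (h2 : (2 : 𝓞 F') ∉ w.asIdeal) {y : F} (hy0 : y ≠ 0)
    (hy : (w.under (𝓞 F)).valuation F α = (w.under (𝓞 F)).valuation F y ^ 2) :
    w.asIdeal.ramificationIdx (𝓞 F) = 1 := by
  have hq : Algebra.IsQuadraticExtension F F' := ⟨hL⟩
  have hgal : IsGalois F F' := { }
  have hp : w.asIdeal.IsPrime := w.isPrime
  have hfin1 : Finite (𝓞 F ⧸ w.asIdeal.under (𝓞 F)) :=
    Ideal.finiteQuotientOfFreeOfNeBot _ (w.under (𝓞 F)).ne_bot
  have h1 := Ideal.card_inertia_eq_ramificationIdxIn (G := Gal(F'/F)) (w.asIdeal.under (𝓞 F))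
    w.asIdeal
  rw [Ideal.ramificationIdxIn_eq_ramificationIdx _ w.asIdeal Gal(F'/F)] at h1
  rw [← h1]
  have hbot : w.asIdeal.inertia Gal(F'/F) = ⊥ := by
    rw [eq_bot_iff]
    intro σ hσ
    have hσ' : ∀ z : 𝓞 F', σ • z - z ∈ w.asIdeal := hσ
    rw [Subgroup.mem_bot]
    have h3 : σ x = x := by
      have h4 : (σ x) ^ 2 = x ^ 2 := by
        rw [← map_pow, hx, AlgEquiv.commutes]
      rcases sq_eq_sq_iff_eq_or_eq_neg.1 h4 with h5 | h5
      · exact h5
      · exfalso
        have hv : w.valuation F' (x ^ 2) = w.valuation F' (algebraMap F F' y) ^ 2 := by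
          rw [hx, GM.val_base, GM.val_base, hy, ← pow_mul, ← pow_mul, mul_comm]
        have hy0' : algebraMap F F' y ≠ 0 := by
          rw [Ne, map_eq_zero]
          exact hy0
        have hyv : w.valuation F' (algebraMap F F' y) ≠ 0 := by
          rw [Ne, map_eq_zero]
          exact hy0'
        have hz : w.valuation F' (x / algebraMap F F' y) = 1 := by
          have h6 : w.valuation F' (x / algebraMap F F' y) ^ 2 = 1 := by
            rw [map_div₀, div_pow, ← map_pow, hv, div_self (pow_ne_zero 2 hyv)]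
          exact (pow_eq_one_iff_of_nonneg zero_le two_ne_zero).1 h6
        have h7 := GM.inert_cong hσ' hz.le
        have h8 : σ (x / algebraMap F F' y) - x / algebraMap F F' y =
            -(2 * (x / algebraMap F F' y)) := by
          rw [map_div₀, AlgEquiv.commutes, h5]
          ring
        have h9 : w.valuation F' (2 : F') = 1 := by
          have h10 : ¬ w.valuation F' (((2 : 𝓞 F') : 𝓞 F') : F') < 1 := by
            rw [GM.val_lt_mem]
            exact h2
          have h11 := GM.val_le w (2 : 𝓞 F')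
          have h12 : (((2 : 𝓞 F') : 𝓞 F') : F') = 2 := map_ofNat (algebraMap (𝓞 F') F') 2
          rw [h12] at h10 h11
          exact le_antisymm h11 (not_lt.1 h10)
        rw [h8, Valuation.map_neg, map_mul, h9, hz, one_mul] at h7
        exact lt_irrefl _ h7
    refine AlgEquiv.ext fun z => ?_
    obtain ⟨b, c, rfl⟩ := hgen z
    rw [map_add, map_mul, AlgEquiv.commutes, AlgEquiv.commutes, h3]
    rfl
  rw [hbot]
  exact Subgroup.card_bot

/-- the Frobenius elements at an inert place move `√α` -/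
theorem frob_neg {Ω : Type*} [Field Ω] [Algebra F Ω] [Algebra F' Ω] [IsScalarTower F F' Ω] {α : F}
    (hx : x ^ 2 = algebraMap F F' α) {v : HeightOneSpectrum (𝓞 F)}
    (hv : ∀ w : HeightOneSpectrum (𝓞 F'), w.under (𝓞 F) = v → w.asIdeal.inertiaDeg (𝓞 F) = 2)
    {V : ValuationSubring Ω} (hV : GL.Abv v V) (σ : Ω ≃ₐ[F] Ω)
    (hσ : GL.IsFr V (Ideal.absNorm v.asIdeal) σ) :
    σ (algebraMap F' Ω x) = -algebraMap F' Ω x := by
  have h4 : (σ (algebraMap F' Ω x)) ^ 2 = (algebraMap F' Ω x) ^ 2 := by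
    rw [← map_pow, ← map_pow, hx, ← IsScalarTower.algebraMap_apply F F' Ω, AlgEquiv.commutes]
  rcases sq_eq_sq_iff_eq_or_eq_neg.1 h4 with h5 | h5
  swap
  · exact h5
  exfalso
  have hfix : ∀ z : F', σ (algebraMap F' Ω z) = algebraMap F' Ω z := by
    intro z
    obtain ⟨b, c, rfl⟩ := hgen z
    rw [map_add, map_mul, map_add, map_mul, h5, ← IsScalarTower.algebraMap_apply F F' Ω,
      ← IsScalarTower.algebraMap_apply F F' Ω, AlgEquiv.commutes, AlgEquiv.commutes]
  obtain ⟨w, hw, hwV⟩ := GL.abv_under (M := F') hV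
  have hf := hv w hw
  obtain ⟨q, hq⟩ : ∃ q, q = Ideal.absNorm v.asIdeal := ⟨_, rfl⟩
  rw [← hq] at hσ
  have i0 : v.asIdeal.IsMaximal := v.isMaximal
  have i1 : w.asIdeal.IsMaximal := w.isMaximal
  have i2 : w.asIdeal.LiesOver v.asIdeal := ⟨(congrArg HeightOneSpectrum.asIdeal hw).symm⟩
  have hN : Ideal.absNorm w.asIdeal = q ^ 2 := by
    rw [hq, ← Ideal.absNorm_pow_inertiaDeg v.asIdeal w.asIdeal, hf]
  have hq1 : 1 < q := by
    rw [hq]
    have h1 : Ideal.absNorm v.asIdeal ≠ 1 := by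
      rw [Ne, Ideal.absNorm_eq_one_iff]
      exact v.isPrime.ne_top
    have h0 : Ideal.absNorm v.asIdeal ≠ 0 := by
      rw [Ne, Ideal.absNorm_eq_zero_iff]
      exact v.ne_bot
    omega
  have hmem : ∀ z : 𝓞 F', z ^ q - z ∈ w.asIdeal := by
    intro z
    have h1 : V.valuation (algebraMap F' Ω (z : F')) ≤ 1 := by
      rw [hwV]
      exact GM.val_le w z
    have h2 := hσ _ h1
    rw [hfix] at h2
    have e : algebraMap F' Ω (z : F') - algebraMap F' Ω (z : F') ^ q =
        algebraMap F' Ω ((z - z ^ q : 𝓞 F') : F') := by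
      have e1 : ((z - z ^ q : 𝓞 F') : F') = (z : F') - (z : F') ^ q := by
        simp
      rw [e1, map_sub, map_pow]
    rw [e, GL.abv_lt hwV, GM.val_lt_mem] at h2
    have h3 := w.asIdeal.neg_mem h2
    rwa [neg_sub] at h3
  let iF : Field (𝓞 F' ⧸ w.asIdeal) := Ideal.Quotient.field _
  have hfin : Finite (𝓞 F' ⧸ w.asIdeal) := Ideal.finiteQuotientOfFreeOfNeBot _ w.ne_bot
  let iFt : Fintype (𝓞 F' ⧸ w.asIdeal) := Fintype.ofFinite _
  have hcard : Fintype.card (𝓞 F' ⧸ w.asIdeal) = q ^ 2 := by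
    rw [← hN, ← Nat.card_eq_fintype_card]
    rfl
  have hle : Fintype.card (𝓞 F' ⧸ w.asIdeal) ≤ q := by
    have hne : (Polynomial.X ^ q - Polynomial.X : Polynomial (𝓞 F' ⧸ w.asIdeal)) ≠ 0 :=
      FiniteField.X_pow_card_sub_X_ne_zero _ hq1
    have hdeg : (Polynomial.X ^ q - Polynomial.X : Polynomial (𝓞 F' ⧸ w.asIdeal)).natDegree = q :=
      FiniteField.X_pow_card_sub_X_natDegree_eq _ hq1
    rw [← hdeg, ← Finset.card_univ]
    refine Polynomial.card_le_degree_of_subset_roots ?_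
    intro z _
    rw [Polynomial.mem_roots hne, Polynomial.IsRoot.def]
    simp only [Polynomial.eval_sub, Polynomial.eval_pow, Polynomial.eval_X]
    obtain ⟨z, rfl⟩ := Ideal.Quotient.mk_surjective z
    rw [← map_pow, ← map_sub, Ideal.Quotient.eq_zero_iff_mem]
    exact hmem z
  rw [hcard] at hle
  nlinarith

end

end Pool.Agent.Lib.MP_1a91b9_ntM
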