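import Pool.Agent.Lib.MP_1a91b9_ntM.PDat

/-!
# Quadratic twists and Frobenius elements

`Ds s`: the isomorphism from the curve to its twist by `s ^ 2`. If the Frobenius elements at `v` change the sign of `√α`, then the
value at `v` of the character of the twist by `α` is the opposite of the value of the character of the curve.
-/

set_option autoImplicit false

namespace Pool.Agent.Lib.MP_1a91b9_ntM

open NumberField IsDedekindDomain WeierstrassCurve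
  Pool.Agent.Lib.MP_1a91b9_nt Pool.Agent.Lib.MP_1a91b9_nuT
open Pool.Agent.Lib.MP_1a91b9_nuX.DB Pool.Agent.Lib.MP_1a91b9_nuX.GL
  Pool.Agent.Lib.MP_1a91b9_nuX.PG Pool.Agent.Lib.MP_1a91b9_nuX.PH

universe u

/-- the change of variables with `u = s⁻¹` -/
noncomputable def Ds {L : Type*} [Field L] (s : L) (hs : s ≠ 0) : VariableChange L :=
  ⟨(Units.mk0 s hs)⁻¹, 0, 0, 0⟩

theorem Ds_smul {L : Type*} [Field L] (s : L) (hs : s ≠ 0) (A B : L) :
    Ds s hs • (⟨0, 0, 0, A, B⟩ : WeierstrassCurve L) = ⟨0, 0, 0, s ^ 4 * A, s ^ 6 * B⟩ := by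
  refine WeierstrassCurve.ext ?_ ?_ ?_ ?_ ?_
  · simp [Ds, variableChange_a₁]
  · simp [Ds, variableChange_a₂]
  · simp [Ds, variableChange_a₃]
  · simp [Ds, variableChange_a₄]
  · simp [Ds, variableChange_a₆]

variable [CD]

theorem cx_Ds (s : Kb) (hs : s ≠ 0) (P : Pt Kb) : cx (Ds s hs) P = xc P * s ^ 2 := by
  have h : (((Ds s hs).u : Kbˣ) : Kb) = s⁻¹ := by simp [Ds]
  rw [cx, h]
  show (xc P - 0) / s⁻¹ ^ 2 = _
  rw [sub_zero, inv_pow, div_inv_eq_mul]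

theorem cy_Ds (s : Kb) (hs : s ≠ 0) (P : Pt Kb) : cy (Ds s hs) P = yc P * s ^ 3 := by
  have h : (((Ds s hs).u : Kbˣ) : Kb) = s⁻¹ := by simp [Ds]
  rw [cy, h]
  show (yc P - 0 * (xc P - 0) - 0) / s⁻¹ ^ 3 = _
  rw [zero_mul, sub_zero, sub_zero, inv_pow, div_inv_eq_mul]

theorem xy_neg [DecidableEq Kb] {P : Pt Kb} (hP : P ≠ 0) : xc (-P) = xc P ∧ yc (-P) = - yc P := by
  obtain ⟨h, e⟩ := exists_mk hP
  rw [e, neg_mk]
  exact ⟨rfl, rfl⟩

section
variable [DecidableEq Kb] {F : Type u} [Field F] [NumberField F] [Algebra F Kb]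
  {v : HeightOneSpectrum (𝓞 F)} {δ α : F} {s r : Kb}

omit [NumberField F] in
/-- the transport of an automorphism which changes the sign of `√α` -/
theorem trp_twist (hs0 : s ≠ 0) (hr0 : r ≠ 0) (hr : r ^ 2 = algebraMap F Kb α)
    (σ : Kb ≃ₐ[F] Kb) (hσ : σ r = -r) {φ : Pt Kb →+ Pt Kb}
    (h : Trp (Ds (r * s) (mul_ne_zero hr0 hs0)) σ φ) : Trp (Ds s hs0) σ (-φ) := by
  intro T hT
  obtain ⟨h1, h2, h3⟩ := h T hT
  rw [cx_Ds, cx_Ds] at h2
  rw [cy_Ds, cy_Ds] at h3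
  have hr2 : σ (r ^ 2) = r ^ 2 := by
    rw [hr, AlgEquiv.commutes]
  have e1 : (-φ) T = -(φ T) := rfl
  obtain ⟨n1, n2⟩ := xy_neg h1
  refine ⟨?_, ?_, ?_⟩
  · rw [e1, neg_ne_zero]
    exact h1
  · rw [e1, cx_Ds, cx_Ds, n1]
    rw [mul_pow, map_mul, map_mul, hr2] at h2
    rw [map_mul]
    refine mul_left_cancel₀ (pow_ne_zero 2 hr0) ?_
    linear_combination h2
  · rw [e1, cy_Ds, cy_Ds, n2]
    rw [mul_pow, map_mul, map_mul, map_pow, hσ] at h3
    rw [map_mul]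
    refine mul_left_cancel₀ (pow_ne_zero 3 hr0) ?_
    linear_combination -h3

/-- the value of the character of the twist -/
theorem frv_twist (hs0 : s ≠ 0) (hr0 : r ≠ 0) (hr : r ^ 2 = algebraMap F Kb α)
    (hσ : ∀ V : ValuationSubring Kb, Abv v V → ∀ σ : Kb ≃ₐ[F] Kb,
      IsFr V (Ideal.absNorm v.asIdeal) σ → σ r = -r) {ψ : 𝓞 K}
    (h : FrV (Ds s hs0) v ψ) : FrV (Ds (r * s) (mul_ne_zero hr0 hs0)) v (-ψ) := by
  intro V hV σ hF φ hφ T hT
  have h1 := h V hV σ hF (-φ) (trp_twist hs0 hr0 hr σ (hσ V hV σ hF) hφ) T hT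
  have e1 : (-φ) T = -(φ T) := rfl
  rw [e1] at h1
  rw [map_neg]
  show φ T = -(sm Kb ψ T)
  rw [← h1, neg_neg]

end

end Pool.Agent.Lib.MP_1a91b9_ntM
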